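import Pool.Agent.SCT.Defs

/-!
# Squad SCT, block B: tangent spaces and the rank of the pencil
-/

set_option autoImplicit false

namespace Pool.Agent.SCT

open MvPolynomial

/-- the tangent space of the closure of the point `y` of the affine space -/
def tan (k : Type) [Field k] {Ω ι : Type} [Field Ω] [Algebra k Ω] [Fintype ι] (y : ι → Ω) :
    Submodule Ω (ι → Ω) where
  carrier := {v | ∀ g : MvPolynomial ι k, aeval y g = 0 → dd g y v = 0}
  zero_mem' := by intro g _; simp [dd]
  add_mem' := by
    intro a b ha hb g hg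
    have h : dd g y (a + b) = dd g y a + dd g y b := by
      simp only [dd, Pi.add_apply, add_mul, Finset.sum_add_distrib]
    rw [h, ha g hg, hb g hg, add_zero]
  smul_mem' := by
    intro c a ha g hg
    have h : dd g y (c • a) = c * dd g y a := by
      simp only [dd, Pi.smul_apply, smul_eq_mul, Finset.mul_sum, mul_assoc]
    rw [h, ha g hg, mul_zero]

/-- the affine cone over the tangent space of the closure of the point `y` of the projective space -/
def ptan (k : Type) [Field k] {Ω ι : Type} [Field Ω] [Algebra k Ω] [Fintype ι] (y : ι → Ω) :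
    Submodule Ω (ι → Ω) where
  carrier := {v | ∀ (g : MvPolynomial ι k) (d : ℕ), g.IsHomogeneous d → aeval y g = 0 → dd g y v = 0}
  zero_mem' := by intro g d _ _; simp [dd]
  add_mem' := by
    intro a b ha hb g d hd hg
    have h : dd g y (a + b) = dd g y a + dd g y b := by
      simp only [dd, Pi.add_apply, add_mul, Finset.sum_add_distrib]
    rw [h, ha g d hd hg, hb g d hd hg, add_zero]
  smul_mem' := by
    intro c a ha g d hd hg
    have h : dd g y (c • a) = c * dd g y a := by
      simp only [dd, Pi.smul_apply, smul_eq_mul, Finset.mul_sum, mul_assoc]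
    rw [h, ha g d hd hg, mul_zero]

/-- **Row TAY** (first order Taylor formula and chain rule; easy). PROOF. First part: induction on `g`
(`MvPolynomial.induction_on`), `TrivSqZeroExt.ext` and `simp`; the algebra structure of `TrivSqZeroExt Ω Ω` over `k` is
the canonical one. Second part: induction on `g`, the Leibniz rule. -/
def TayStmt : Prop :=
  ∀ (k Ω : Type) [Field k] [Field Ω] [Algebra k Ω] (ι : Type) [Fintype ι] (y v : ι → Ω)
    (g : MvPolynomial ι k),
    aeval (fun i => (TrivSqZeroExt.inl (y i) + TrivSqZeroExt.inr (v i) : TrivSqZeroExt Ω Ω)) g =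
      TrivSqZeroExt.inl (aeval y g) + TrivSqZeroExt.inr (dd g y v) ∧
    ∀ D : Derivation k Ω Ω, D (aeval y g) = dd g y (fun i => D (y i))

/-- **Row JAC** (tangent spaces over a perfect field; medium/strong). Uses TAY. PROOF. `C = k(y)`, the field
generated by the coordinates of `y`. `exists_isTranscendenceBasis_and_isSeparable_of_perfectField` gives a finite
transcendence basis `s` of `C / k` such that `C` is separable over `k(s)`; `card s ≤ d`. For `v ∈ tan k y` the map
`g(y) ↦ g(y) + ε dd g y v` is a well defined homomorphism of `k[y]` to `Ω[ε] = TrivSqZeroExt Ω Ω` (TAY);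
nonzero elements go to units, so it extends to `ψ v : C → Ω[ε]` (or define the derivation
`D v (a / b) = (b D a - a D b) / b ^ 2` of `C` in `Ω` directly). Its second component `D v` is linear in `v`
(and `D v (y i) = v i`). If `D v` vanishes on `s` it vanishes on `k(s)` and on `C`, because an element `z` of `C` is a
simple root of a polynomial `p` over `k(s)` (`0 = D (p z) = p' (z) D z`). So `v ↦ (D v) on s`,
`tan k y → (s → Ω)`, is injective. (Linearity in `v` can be replaced by the uniqueness of the extension.) -/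
def JacStmt : Prop :=
  ∀ (k Ω : Type) [Field k] [PerfectField k] [Field Ω] [Algebra k Ω] (ι : Type) [Fintype ι]
    (y : ι → Ω) (d : ℕ), Algebra.trdeg k (IntermediateField.adjoin k (Set.range y)) ≤ d →
    Module.finrank Ω (tan k y) ≤ d

/-- **Row PTN** (projective tangent spaces; medium). Uses JAC. PROOF. `Ω' = RatFunc Ω` (or the fraction field of
`Polynomial Ω`), `ρ` its variable, `y' = ρ y` (coordinates in `Ω'`). The field `k(y')` is contained in
`k(ratios of y)(ρ y c)`, `y c ≠ 0`, of transcendence degree at most `d + 1`. If `v ∈ ptan k y`, then the image of `v`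
in `ι → Ω'` is in `tan k y'`: for `g (y') = 0`, `g = ∑ g e` the homogeneous components,
`0 = ∑ ρ ^ e g e (y)` gives `g e (y) = 0` for all `e`, so `dd (g e) y v = 0` and
`dd g y' v = ∑ ρ ^ (e - 1) dd (g e) y v = 0`. Vectors of `ι → Ω` that are linearly independent over `Ω` are so
over `Ω'`. -/
def PtnStmt : Prop :=
  ∀ (k Ω : Type) [Field k] [PerfectField k] [Field Ω] [Algebra k Ω] (ι : Type) [Fintype ι]
    (y : ι → Ω) (d : ℕ), y ≠ 0 → DimLe k y d → Module.finrank Ω (ptan k y) ≤ d + 1

/-- **Row DER** (partial derivatives of rational functions; easy/medium). PROOF. For `j` the homomorphism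
`k[T] → K[ε]`, `K = FT k n`, `T i ↦ T i + ε δ i j`, maps nonzero polynomials to units of `K[ε]`, so it extends to
`K` (`IsLocalization.lift`); its second component is the derivation (`TrivSqZeroExt.snd`,
`Derivation.mk'`). Or define `D j (a / b)` by the quotient rule, or look for the extension of a derivation to a
localization in Mathlib. -/
def DerStmt : Prop :=
  ∀ (k : Type) [Field k] (n : ℕ), ∃ D : Fin (n + 2) → Derivation k (FT k n) (FT k n),
    ∀ i j, D j (gen k n i) = if i = j then 1 else 0

/-- the vector `e j + s D j w` -/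
noncomputable def vec (k : Type) [Field k] (n : ℕ) (D : Fin (n + 2) → Derivation k (FT k n) (FT k n))
    (w : Fin (n + 2) → FT k n) (s : Cl k n) (j : Fin (n + 2)) : Fin (n + 2) → Cl k n :=
  fun i => (if i = j then 1 else 0) + s * algebraMap (FT k n) (Cl k n) (D j (w i))

/-- **Row RN1** (differentiation of the equations along the line; medium). Uses TAY. PROOF. `K = FT k n`,
`q` the minimal polynomial of `s` over `K`, `p = pt k n w s = T + s w`. Let `g (p) = 0`. The polynomial
`G = g (T + X w)` of `K[X]` vanishes at `s`, so `G = q * H`; put `h = H (s)`. For `j` let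
`Φ : K[X] → Cl[ε]` (`TrivSqZeroExt`) be the ring homomorphism with `Φ z = z + ε D j z` on `K`, `Φ X = s`. By TAY
`Φ G = g (T + ε e j + s (w + ε D j w)) = g (p) + ε dd g p (vec j) = ε dd g p (vec j)`, and
`Φ q = q (s) + ε α j = ε α j` with `α j` the second component of `Φ q` (it does not depend on `g`), so
`dd g p (vec j) = α j * h`. In the same way with `Φ z = z`, `Φ X = s + ε`: `dd g p w = q' (s) * h`, `β = q' (s)`.
(Or with `Derivation.mapCoeff`.) -/
def Rn1Stmt : Prop :=
  ∀ (k : Type) [Field k] (n : ℕ) (D : Fin (n + 2) → Derivation k (FT k n) (FT k n)),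
    (∀ i j, D j (gen k n i) = if i = j then 1 else 0) →
    ∀ (w : Fin (n + 2) → FT k n) (s : Cl k n), ∃ (α : Fin (n + 2) → Cl k n) (β : Cl k n),
      ∀ g : MvPolynomial (Fin (n + 2)) k, aeval (pt k n w s) g = 0 → ∃ h : Cl k n,
        (∀ j, dd g (pt k n w s) (vec k n D w s j) = α j * h) ∧
        dd g (pt k n w s) (fun i => algebraMap (FT k n) (Cl k n) (w i)) = β * h

/-- **Row RNK** (the rank of the pencil at a root; medium). Uses PTN, RN1. PROOF. `p = pt k n w s ≠ 0`
(else `T i w j = T j w i` for all `i j` and `T`, `w` are dependent over `FT k n`). By PTN `P = ptan k p` has dimension at most `a + 1`. Let `U` be the span of the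
`vec j`, `j : Fin (n + 2)`, and `w`. If `∑ a j vec j + b w` satisfies `∑ a j α j + b β = 0` (RN1), it is in `P`. So
`dim (U + P) ≤ dim P + 1 ≤ a + 2` (the kernel of `(a, b) ↦ ∑ a j α j + b β` has codimension at most one). `p ∈ P` (Euler:
`dd g p p = d g (p) = 0` for a form of degree `d`, `MvPolynomial.IsHomogeneous.sum_X_mul_pderiv` or similar), and
`T = p - s w ∈ U + P`. -/
def RnkStmt : Prop :=
  ∀ (k : Type) [Field k] [PerfectField k] (n : ℕ)
    (D : Fin (n + 2) → Derivation k (FT k n) (FT k n)),
    (∀ i j, D j (gen k n i) = if i = j then 1 else 0) →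
    ∀ (w : Fin (n + 2) → FT k n) (s : Cl k n) (a : ℕ), LinearIndependent (FT k n) ![gen k n, w] →
    DimLe k (pt k n w s) a →
    Module.finrank (Cl k n) (Submodule.span (Cl k n) (Set.range (vec k n D w s) ∪
      {fun i => algebraMap (FT k n) (Cl k n) (gen k n i),
        fun i => algebraMap (FT k n) (Cl k n) (w i)})) ≤ a + 2

/-- **Row MAT** (linear algebra: two eigenspaces; medium/strong). PROOF. For a field `R` between `K` and `Ω` let
`U R = {λ : Fin (n + 2) → R | λ ⬝ T = 0, λ ⬝ w = 0}`, of dimension `n`, and `B λ = (λ ⬝ d j) j`. For `s = s1`, `a1 = a` or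
`s = s2`, `a1 = b` the space `Λ s = {λ ∈ U Ω | ∀ j, λ j + s (B λ) j = 0}`, the annihilator of the space of the
hypothesis, has dimension at least `n - a1`. `s1`, `s2` are not `0`.
(1) `s1 ≠ s2`: `Λ s1`, `Λ s2` meet in `0` and have dimensions at least `b`, `a`, so `U Ω` is their sum. If
`λ = λ1 + λ2`, `B λ = 0`, then `λ1 / s1 + λ2 / s2 = 0`, so `λ1 = λ2 = 0`. So `B` is injective on `U Ω`, the annihilator
of the `d j` meets the space `U Ω` of codimension two in `0`, so its dimension is at most `2`, and the rank of
the `d j` (the same over `K` and `Ω`) is at least `n`.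
(2) `s1 = s2 = s`, not in `K`: `2 s = α` gives `2 = 0` in `K`, `s ^ 2 = β ∈ K`, `β ≠ 0`. We may assume
`2 a ≤ n` (else `2 b ≤ n`). Let `R = K(s)`, with the basis `1, s` over `K`. The solution space `Λ` over `R` of the linear
system has the same dimension as over `Ω` (rank of a matrix over `R`), so at least `n - a`, and at least
`2 (n - a) ≥ n` over `K`. For `λ = λ0 + s λ1` in it: `λ0 = β B λ1`, `λ1 = B λ0` up to signs (the characteristic is
two), so `λ ↦ λ0` is injective, `Λ → U K`; `U K` has dimension `n`, so every `λ0 ∈ U K` occurs and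
`λ0 = β B (B λ0)`: `B` is injective on `U K`. Conclusion as in (1), over `K`. -/
def MatStmt : Prop :=
  ∀ (K Ω : Type) [Field K] [Field Ω] [Algebra K Ω] (n a b : ℕ) (T w : Fin (n + 2) → K)
    (d : Fin (n + 2) → Fin (n + 2) → K) (s1 s2 : Ω) (α β : K), a + b = n →
    LinearIndependent K ![T, w] → s1 + s2 = algebraMap K Ω α → s1 * s2 = algebraMap K Ω β → β ≠ 0 →
    (s1 ≠ s2 ∨ ∀ z : K, s1 ≠ algebraMap K Ω z) →
    Module.finrank Ω (Submodule.span Ω (Set.range (fun j i => (if i = j then 1 else 0) +
      s1 * algebraMap K Ω (d j i)) ∪ {fun i => algebraMap K Ω (T i),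
        fun i => algebraMap K Ω (w i)})) ≤ a + 2 →
    Module.finrank Ω (Submodule.span Ω (Set.range (fun j i => (if i = j then 1 else 0) +
      s2 * algebraMap K Ω (d j i)) ∪ {fun i => algebraMap K Ω (T i),
        fun i => algebraMap K Ω (w i)})) ≤ b + 2 →
    n ≤ Module.finrank K (Submodule.span K (Set.range d))

/-- **Row TRD** (the dimension of a point of the line; easy/medium). Uses TAY, JAC, DER, RNK, MAT. PROOF. `D` of DER,
`d j i = D j (w i)`. RNK for `s1`, `s2` and MAT with `Ω = Cl k n`: the space spanned by the vectors `D j w` has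
dimension at least `n` over `FT k n`. These vectors are in `tan k w` (`0 = D j (g (w)) = dd g w (D j w)`, TAY). By JAC
(for `Ω = FT k n`) `n ≤ d`, as `k(w) = rat k w` because `w c = 1`. -/
def TrdStmt : Prop :=
  ∀ (k : Type) [Field k] [PerfectField k] (n a b : ℕ) (w : Fin (n + 2) → FT k n)
    (c : Fin (n + 2)) (s1 s2 : Cl k n) (α β : FT k n) (d : ℕ), a + b = n → w c = 1 →
    LinearIndependent (FT k n) ![gen k n, w] → s1 + s2 = algebraMap (FT k n) (Cl k n) α →
    s1 * s2 = algebraMap (FT k n) (Cl k n) β → β ≠ 0 →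
    (s1 ≠ s2 ∨ ∀ z : FT k n, s1 ≠ algebraMap (FT k n) (Cl k n) z) →
    DimLe k (pt k n w s1) a → DimLe k (pt k n w s2) b → DimLe k w d → n ≤ d

end Pool.Agent.SCT
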