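import Pool.Agent.SCT.StmtsA
import Pool.Agent.SCT.StmtsB

/-!
# Squad SCT, block C: fields, specialisation, rationality
-/

set_option autoImplicit false

namespace Pool.Agent.SCT

open MvPolynomial

/-- **Row EXP** (a cubic form on a line; easy/medium). PROOF. All the statements are linear in `f`, and a form of degree
three is a sum of monomials `c X i X j X l` (compare `deg_two`, `expand` in Helper88_CUB/QP for degree two). For
such a monomial `dd f a b = c (b i a j a l + a i b j a l + a i a j b l)`, and `ring` (with care for equal indices: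
`pderiv_mul`, `pderiv_X`, `Pi.single`, `Finset.sum_ite_eq`). -/
def ExpStmt : Prop :=
  ∀ (k Ω ι : Type) [Field k] [Field Ω] [Algebra k Ω] [Fintype ι] (f : MvPolynomial ι k),
    f.IsHomogeneous 3 → ∀ (a b : ι → Ω) (u : Ω),
      aeval (fun i => a i + u * b i) f =
        aeval a f + u * dd f a b + u ^ 2 * dd f b a + u ^ 3 * aeval b f ∧
      dd f (fun i => a i + u * b i) b = dd f a b + 2 * u * dd f b a + 3 * u ^ 2 * aeval b f ∧
      dd f a a = 3 * aeval a f ∧ aeval (fun i => u * a i) f = u ^ 3 * aeval a f ∧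
      dd f (fun i => u * a i) b = u ^ 2 * dd f a b

/-- **Row COP** (coprime polynomials have no common zero of codimension one; medium/strong). PROOF. A transcendence basis
of `k(y)` can be chosen among the `y i` (`exists_isTranscendenceBasis_subset`), so there is `j` such that the
`y i`, `i ≠ j`, are algebraically independent. Rename the variables so that `j = 0`, and use
`MvPolynomial.finSuccEquiv k n`, `A = MvPolynomial (Fin n) k` (a UFD), `ψ : A → Ω` the injective evaluation at the
`y i`, `i ≠ 0`. `g ≠ 0` (otherwise `h` is a unit, `h (y) ≠ 0`), it has an irreducible factor `π` with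
`π (y) = 0`; as a polynomial over `A` it has positive degree (a nonzero element of `A` does not vanish at `y`), so
it is primitive and irreducible over `Frac A` (Gauss, `Polynomial.IsPrimitive.irreducible_iff_irreducible_map_fraction_map`)
and generates the ideal of the polynomials over `Frac A` that vanish at `y 0`. So `π` divides `h` over `Frac A`
and over `A` (`Polynomial.IsPrimitive.dvd_of_fraction_map_dvd_fraction_map` or similar). So `π` is a common divisor
of `g` and `h`, not a unit. -/
def CopStmt : Prop :=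
  ∀ (k Ω : Type) [Field k] [Field Ω] [Algebra k Ω] (n : ℕ) (g h : MvPolynomial (Fin (n + 1)) k)
    (y : Fin (n + 1) → Ω), IsRelPrime g h → aeval y g = 0 → aeval y h = 0 →
    (n : Cardinal) ≤ Algebra.trdeg k (IntermediateField.adjoin k (Set.range y)) → False

/-- **Row AIN** (independence; medium). PROOF. `T = a x + b w`, `α = a * x i`, `β = b * w j`. `C = rat k x ⊔ rat k w`
contains the `x l / x i`, `w l / w j`, so the field `C(α, β)` contains the `T l` and is everything. The
transcendence degree of `FT k n` over `k` is `n + 2`, that of `C` at most `n`, so that of `FT k n` over `C` is at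
least two (`Algebra.trdeg_add_eq`) and the two generators `α`, `β` are algebraically independent over `C`. -/
def AinStmt : Prop :=
  ∀ (k : Type) [Field k] (n : ℕ) (x w : Fin (n + 2) → FT k n) (i j : Fin (n + 2)),
    x i ≠ 0 → w j ≠ 0 → gen k n ∈ Submodule.span (FT k n) {x, w} → DimLe2 k x w n →
    ∃ α β : FT k n, (∀ l, gen k n l = α * (x l / x i) + β * (w l / w j)) ∧
      AlgebraicIndependent (rat k x ⊔ rat k w : IntermediateField k (FT k n)) ![α, β]

/-- **Row FLA** (the field of the pair is the field of the point; medium/strong). Uses COP, AIN. PROOF. `C`, `α`, `β`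
of AIN, `x' l = x l / x i`, `w' l = w l / w j`, `T = α x' + β w'`. Let `y ∈ rat k w`, so `y ∈ C`, `y = g / h` with coprime
polynomials `g`, `h` (`IsFractionRing.exists_reduced_fraction` or similar). In `C[A, B]` (`MvPolynomial (Fin 2) C`)
the polynomial `y h (A x' + B w') - g (A x' + B w')` vanishes at `(α, β)`, so it is `0`. Put `B = 0`: for every degree
`e` the homogeneous components satisfy `y h e (x') = g e (x')`. If some `h e (x') ≠ 0`, then
`y = g e (x') / h e (x')` is in `k(x') = rat k x`. Otherwise all `h e (x') = 0 = g e (x')`, so `g` and `h` vanish at the point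
`A x'` over `RatFunc (FT k n)` (or at `α x'`, as `α` is transcendental over `C`: then everything is inside
`FT k n`), whose field `k(α x') = k(x')(α)` has transcendence degree at least `n + 1` (the `i`-th coordinate is
`α`); contradiction to COP (for `n + 1`). -/
def FlaStmt : Prop :=
  ∀ (k : Type) [Field k] (n : ℕ) (x w : Fin (n + 2) → FT k n), x ≠ 0 → w ≠ 0 →
    gen k n ∈ Submodule.span (FT k n) {x, w} → DimLe2 k x w n →
    (∀ d : ℕ, DimLe k x d → n ≤ d) → rat k w ≤ rat k x

/-- **Row FLB** (a dominant point of a hyperplane; medium). PROOF. `c i ≠ 0`; there is `j ≠ i` with `w j ≠ 0` (else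
`c i w i = 0`). `rat k w` is generated by the `n` elements `w l / w j`, `l ≠ i, j` (`rat_eq`; the element `w i / w j` is
a linear combination of the others and `1`). Its transcendence degree is at least `n`, so these elements are
algebraically independent, and they generate: `AlgebraicIndependent.aevalEquivField` or similar, reindex by
`Fin n`. -/
def FlbStmt : Prop :=
  ∀ (k Ω : Type) [Field k] [Field Ω] [Algebra k Ω] (n : ℕ) (w : Fin (n + 2) → Ω)
    (c : Fin (n + 2) → k), w ≠ 0 → c ≠ 0 → ∑ i, algebraMap k Ω (c i) * w i = 0 →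
    (∀ d : ℕ, DimLe k w d → n ≤ d) →
    Nonempty (rat k w ≃ₐ[k] FractionRing (MvPolynomial (Fin n) k))

/-- **Row FLD** (rationality from the two points; easy/medium). Uses FLA, FLB. PROOF. FLA twice (the second time with the
roles of `x` and `w` exchanged, `DimLe2` and the span are symmetric): `rat k x = rat k w`. FLB: `e : rat k w ≃ ...`.
`x i ≠ 0`; the point `l ↦ e (x l / x i)` is a zero of `f` (homogeneous), its `i`-th coordinate is `1`, and the ratios
of its coordinates generate (`adjoin_equiv` of Helper64_CUB/Fld, or `IntermediateField.adjoin_map`). -/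
def FldStmt : Prop :=
  ∀ (k : Type) [Field k] (n : ℕ) (f : MvPolynomial (Fin (n + 2)) k) (x w : Fin (n + 2) → FT k n)
    (c : Fin (n + 2) → k), f.IsHomogeneous 3 → x ≠ 0 → w ≠ 0 → c ≠ 0 → aeval x f = 0 →
    ∑ i, algebraMap k (FT k n) (c i) * w i = 0 → gen k n ∈ Submodule.span (FT k n) {x, w} →
    DimLe2 k x w n → (∀ d : ℕ, DimLe k x d → n ≤ d) → (∀ d : ℕ, DimLe k w d → n ≤ d) →
    IsRat k n f

/-- **Row SUP** (transcendence degree of a compositum; easy/medium). PROOF. Transcendence bases `B1`, `B2` of the two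
fields; the compositum is algebraic over `k(B1 ∪ B2)` (`Algebra.trdeg_le_cardinalMk`). -/
def SupStmt : Prop :=
  ∀ (k Ω : Type) [Field k] [Field Ω] [Algebra k Ω] (C1 C2 : IntermediateField k Ω) (a b : ℕ),
    Algebra.trdeg k C1 ≤ a → Algebra.trdeg k C2 ≤ b →
    Algebra.trdeg k (C1 ⊔ C2 : IntermediateField k Ω) ≤ (a + b : ℕ)

/-- **Row P2** (`x` and the point of the hyperplane are rational functions of the two points; medium). Uses EXP, SUP.
PROOF. `p = T + u x`, `q = T + v x` over `Ω = Cl k n`, `(u - v) x = p - q`, `(u - v) T = u q - v p`. `f (T) ≠ 0`, `f (x) = 0`.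
`p`, `q` are not `0` (if `T = - u x` then `f (T) = 0`), `p = a1 p'`, `q = a2 q'` with a coordinate of `p'`, `q'` equal
to `1`, so all the coordinates are in `L = rat k p ⊔ rat k q`, of transcendence degree at most `a + b = n` (SUP).
By EXP `f (p) = f (q) = 0` (`Sec`) and `f (s p' + t q') = s t (s A + t B)`, `A = dd f p' q'`, `B = dd f q' p'` in `L`. From
`f (x) = 0` : `a1 A = a2 B`; from `f (T) ≠ 0`, `T` a combination of `p'` and `q'`: `(A, B) ≠ 0`, so both are not `0`
and `x` is proportional to `B p' - A q'`. With `c ⬝ p = ∑ c j p j` :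
`hyp c x = ((c ⬝ q) p - (c ⬝ p) q) / (u - v) = a1 a2 ((c ⬝ q') p' - (c ⬝ p') q') / (u - v)`.
So `rat k x` and `rat k (hyp c x)`, mapped to `Ω`, are in `L` (`rat_smul`, `rat_map`, `dimLe2_map`). -/
def P2Stmt : Prop :=
  ∀ (k : Type) [Field k] (n a b : ℕ) (f : MvPolynomial (Fin (n + 2)) k)
    (x : Fin (n + 2) → FT k n) (u v : Cl k n) (c : Fin (n + 2) → k), a + b = n →
    f.IsHomogeneous 3 → f ≠ 0 → Sec k n a b f x u v → u ≠ v → DimLe2 k x (hyp k n c x) n

/-- **Row VAL** (the Gauss valuation and its extension to the closure; medium/strong). PROOF. `K = FT E n`. Let `S` be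
the set of the polynomials `g` over `V` with `map π g ≠ 0` (a submonoid, the complement of a prime ideal `P` of
`V[T]`), `A = Localization.AtPrime P`, `A → Cl E n` the natural map (`g ∈ S` goes to a nonzero element, as
`map V.subtype g ≠ 0`). `IsLocalRing.exists_factor_valuationRing` (see `val_thm` in Helper64_CUB/Val) gives `W`
with a local homomorphism `A → W`. The residue field `κ` of `W` contains the fraction field `FT F' n` of
`V[T] / P = F'[T]` (`π` surjective): a homomorphism `FT F' n → κ` that sends `map π g` to the residue of `g`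
(`IsFractionRing.lift` and `Ideal.Quotient`, or: `F'[T] → κ` well defined because `P` goes to the maximal ideal of `W`).
`Ω' = AlgebraicClosure κ`, `Cl F' n → Ω'` by `IsAlgClosed.lift`. Last clause: `y = g / h`, `g`, `h` over `E`; by
`prim` (Helper64_CUB/Red) `g = s g0`, `h = t h0` with `g0`, `h0` over `V` with a coefficient `1` (if `y ≠ 0`), so they are
units in `W`, and `y = (s / t) (g0 / h0)`, `s / t ∈ W`, `s / t` is in `V` (`W` dominates: if `(s / t)⁻¹` is in the
maximal ideal of `V` it is in the one of `W`), so `ρ z = π (s / t) (map π g0) / (map π h0)`. -/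
def ValStmt : Prop :=
  ∀ (E F' : Type) [Field E] [Field F'] (V : ValuationSubring E) (π : V →+* F') (n : ℕ),
    Function.Surjective π → (∀ x, π x ≠ 0 → IsUnit x) →
    ∃ (W : ValuationSubring (Cl E n)) (Ω' : Type) (_ : Field Ω') (_ : Algebra (Cl F' n) Ω')
      (ρ : W →+* Ω'), (∀ z, ρ z ≠ 0 → IsUnit z) ∧
      (∀ g : MvPolynomial (Fin (n + 2)) V, ∃ z : W,
        (z : Cl E n) = algebraMap (FT E n) (Cl E n)
          (algebraMap (MvPolynomial (Fin (n + 2)) E) (FT E n) (map V.subtype g)) ∧
        ρ z = algebraMap (Cl F' n) Ω' (algebraMap (FT F' n) (Cl F' n)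
          (algebraMap (MvPolynomial (Fin (n + 2)) F') (FT F' n) (map π g)))) ∧
      ∀ (z : W) (y : FT E n), (z : Cl E n) = algebraMap (FT E n) (Cl E n) y → ∃ y' : FT F' n,
        ρ z = algebraMap (Cl F' n) Ω' (algebraMap (FT F' n) (Cl F' n) y')

/-- **Row TRR** (the transcendence degree does not grow under reduction; medium). PROOF. If the transcendence degree of
the field of the reductions is larger than `d`, there are (`exists_isTranscendenceBasis_subset`) `d + 1` indices
such that the `ρ (z i)` are algebraically independent over `F'`. Then the `z i` for these indices are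
algebraically independent over `E`: a nonzero relation over `E` can be scaled to have coefficients in `V`, one of
them `1` (`prim` in Helper64_CUB/Red with `ι = Unit`), and its reduction is a nonzero relation over `F'`. So the
transcendence degree over `E` is at least `d + 1`. -/
def TrrStmt : Prop :=
  ∀ (E F' Ω Ω' : Type) [Field E] [Field F'] [Field Ω] [Field Ω'] [Algebra E Ω] [Algebra F' Ω']
    (V : ValuationSubring E) (π : V →+* F') (W : ValuationSubring Ω) (ρ : W →+* Ω') (ι : Type)
    (z : ι → W) (d : ℕ), Function.Surjective π → (∀ x, π x ≠ 0 → IsUnit x) →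
    (∀ a : V, ∃ b : W, (b : Ω) = algebraMap E Ω a ∧ ρ b = algebraMap F' Ω' (π a)) →
    Algebra.trdeg E (IntermediateField.adjoin E (Set.range fun i => (z i : Ω))) ≤ d →
    Algebra.trdeg F' (IntermediateField.adjoin F' (Set.range fun i => ρ (z i))) ≤ d

/-- **Row SPP** (reduction of points; easy/medium). Uses TRR. PROOF. If `ρ (y j) ≠ 0`, `y j` is a unit of `W` and
`rat F' (ρ y)` is generated by the reductions of the `y i / y j` (`rat_eq`), which are in `rat E y`. If all
`ρ (y i) = 0`, all the ratios are `0` and `rat F' (ρ y) = ⊥`. For `DimLe2` use the family indexed by `ι ⊕ ι`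
(and `IntermediateField.adjoin_union`). -/
def SppStmt : Prop :=
  ∀ (E F' Ω Ω' : Type) [Field E] [Field F'] [Field Ω] [Field Ω'] [Algebra E Ω] [Algebra F' Ω']
    (V : ValuationSubring E) (π : V →+* F') (W : ValuationSubring Ω) (ρ : W →+* Ω') (ι : Type)
    (y z : ι → W) (d : ℕ), Function.Surjective π → (∀ x, π x ≠ 0 → IsUnit x) →
    (∀ x, ρ x ≠ 0 → IsUnit x) →
    (∀ a : V, ∃ b : W, (b : Ω) = algebraMap E Ω a ∧ ρ b = algebraMap F' Ω' (π a)) →
    (DimLe E (fun i => (y i : Ω)) d → DimLe F' (fun i => ρ (y i)) d) ∧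
    (DimLe2 E (fun i => (y i : Ω)) (fun i => (z i : Ω)) d →
      DimLe2 F' (fun i => ρ (y i)) (fun i => ρ (z i)) d)

/-- **Row SCL** (scaling; easy). Uses EXP. PROOF. `T + (u / s) (s x) = T + u x`, `dd f T (s x) = s dd f T x`,
`dd f (s x) T = s ^ 2 dd f x T`. -/
def SclStmt : Prop :=
  ∀ (k : Type) [Field k] (n a b : ℕ) (f : MvPolynomial (Fin (n + 2)) k)
    (x : Fin (n + 2) → FT k n) (u v : Cl k n) (s : FT k n), f.IsHomogeneous 3 → s ≠ 0 →
    Sec k n a b f x u v → Sec k n a b f (fun i => s * x i) (u / algebraMap (FT k n) (Cl k n) s)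
      (v / algebraMap (FT k n) (Cl k n) s)

/-- **Row SPC** (specialisation; strong). Uses ANI, EXP, P2, VAL, SPP, SCL. PROOF. VAL gives `W`, `Ω'`, `ρ`; `F'` acts on
`Ω'` through `Cl F' n`.
(1) Scale `x` (SCL): divide by the coordinate of maximal value for `W` (`max_val` of Helper64_CUB/Red), so all `x i` are
in `W` and one of them is `1`. Last clause of VAL: `ρ (x i) = x' i`, `x' i ∈ FT F' n`, one of them is `1`. `T i ∈ W`,
`ρ (T i) = T i` (second clause, `g = X i`). Let `κ : V → W` be the inclusion, `ρ κ = π` (second clause, `g = C a`). For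
`g` over `V` and `y : Fin (n + 2) → W` the element `eval₂ κ y g` of `W` is the value of `map V.subtype g` at `y` and is
mapped by `ρ` to the value of `map π g` at `ρ y` (`hom_eval₂`; see `eval_hom` in Helper64_CUB/Red); the same for `dd`. So
`f' (x') = 0`, `f' = map π f`, `x' ≠ 0`.
(2) ANI for `f'`: `dd f' x' T ≠ 0`, so `a2 = dd f x T` is a unit of `W`, and `u`, `v` (roots of
`a2 U ^ 2 + a1 U + f (T)`, coefficients in `W`) are in `W` (otherwise `u⁻¹` is in the maximal ideal and
`a2 = - u⁻¹ a1 - u⁻² f (T)` would be so). `ρ u`, `ρ v` are roots of the quadratic polynomial over `FT F' n`, so they are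
images of elements `u'`, `v'` of `Cl F' n` (algebraically closed), the relations `sum`, `prod` hold for them.
(3) `pt F' n x' u'`, mapped to `Ω'`, is the reduction of `pt E n x u`: SPP and `dimLe_map` give `dimu`, the same for `dimv`.
(4) `c` over `F'`: lift it to `V` (`π` surjective). `hyp F' n c x'` is the reduction of `hyp E n c x`. P2 over `E`
(`map V.subtype f ≠ 0` since `map π f ≠ 0`, `Nonsing.ne_zero`), SPP and `dimLe2_map` give the last claim. -/
def SpcStmt : Prop :=
  ∀ (E F' : Type) [Field E] [Field F'] [IsAlgClosed F'] (V : ValuationSubring E) (π : V →+* F')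
    (n a b : ℕ) (f : MvPolynomial (Fin (n + 2)) V) (x : Fin (n + 2) → FT E n) (u v : Cl E n),
    Function.Surjective π → (∀ x, π x ≠ 0 → IsUnit x) → a + b = n → f.IsHomogeneous 3 →
    Nonsing F' n (map π f) → Sec E n a b (map V.subtype f) x u v → u ≠ v →
    ∃ (x' : Fin (n + 2) → FT F' n) (u' v' : Cl F' n), Sec F' n a b (map π f) x' u' v' ∧
      ∀ c : Fin (n + 2) → F', DimLe2 F' x' (hyp F' n c x') n

/-- **Row PTS** (the points of the line are dominant; medium/strong). Uses ANI, EXP, TRD. PROOF. `K = FT k n`,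
`a2 = dd f x T ≠ 0` (ANI), `a1 = dd f T x`, `f (T) ≠ 0` (`aeval_gen_ne`, `Nonsing.ne_zero`). `y = x - μ T ≠ 0` and `T`, `x`
are linearly independent (`f (x) = 0 ≠ f (T)`). Choose `c` with `ν = y c ≠ 0`, `w = y / ν`, `w c = 1`, `rat k w = rat k y`.
The value of the hypothesis is `l = a2 (1 + u μ) (1 + v μ)` in `Cl` by `Sec`, so `1 + u μ`, `1 + v μ` are not `0`. Put
`s1 = u ν / (1 + u μ)`, `s2 = v ν / (1 + v μ)`: `T + u x = (1 + u μ) (T + s1 w)`, so `DimLe k (pt k n w s1) a` (`rat_smul`),
the same for `s2`. `s1 + s2 = ν (2 f (T) μ - a1) / l` and `s1 s2 = ν ^ 2 f (T) / l` are in `K`, the second is not `0`.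
If `s1 = s2` then `u = v`; if moreover `s1 ∈ K` then `u = s1 / (ν - s1 μ) ∈ K` and for `p = T + u x ∈ K ^ (n + 2)`:
`p ≠ 0` (`f (T) ≠ 0`), `f (p) = f (T) + u a1 + u ^ 2 a2 = 0`, `dd f p x = a1 + 2 u a2 = 0` (EXP, `f (x) = 0`),
`dd f p T = dd f p p - u dd f p x = 3 f (p) = 0`, contradiction to ANI. TRD gives the claim. -/
def PtsStmt : Prop :=
  ∀ (k : Type) [Field k] [IsAlgClosed k] (n a b : ℕ) (f : MvPolynomial (Fin (n + 2)) k)
    (x : Fin (n + 2) → FT k n) (u v : Cl k n) (μ : FT k n) (d : ℕ), a + b = n →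
    f.IsHomogeneous 3 → Nonsing k n f → Sec k n a b f x u v →
    μ ^ 2 * aeval (gen k n) f - μ * dd f (gen k n) x + dd f x (gen k n) ≠ 0 →
    DimLe k (fun i => x i - μ * gen k n i) d → n ≤ d

/-- **Row RAT** (rationality; medium). Uses ANI, EXP, PTS, FLD. PROOF. The points `pt u`, `pt v` (over `Cl`) and `x` are
not `0` (`f (T) ≠ 0`), so there is `c : Fin (n + 2) → k` with `c ⬝ pt u ≠ 0`, `c ⬝ pt v ≠ 0`, `c ⬝ x ≠ 0` (`k` is infinite:
a product of three nonzero linear forms over `Cl` does not vanish on `k ^ (n + 2)`). `c ≠ 0`, `c ⬝ T ≠ 0`. Let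
`w = hyp k n c x = (c ⬝ T) (x - μ T)`, `μ = (c ⬝ x) / (c ⬝ T) ≠ 0`; `∑ c i w i = 0`; `w ≠ 0` and
`T = ((c ⬝ T) x - w) / (c ⬝ x)` is in the span of `x`, `w`. `1 + u μ = (c ⬝ pt u) / (c ⬝ T) ≠ 0`, the same for `v`, so
`μ ^ 2 f (T) - μ a1 + a2 = a2 (1 + u μ) (1 + v μ) ≠ 0`, and PTS for `μ` gives `DimLe k w d → n ≤ d` (`rat_smul`). PTS for
`μ = 0` (`a2 ≠ 0` by ANI) gives `DimLe k x d → n ≤ d`. FLD. -/
def RatStmt : Prop :=
  ∀ (k : Type) [Field k] [IsAlgClosed k] (n a b : ℕ) (f : MvPolynomial (Fin (n + 2)) k)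
    (x : Fin (n + 2) → FT k n) (u v : Cl k n), a + b = n → f.IsHomogeneous 3 → Nonsing k n f →
    Sec k n a b f x u v → (∀ c : Fin (n + 2) → k, DimLe2 k x (hyp k n c x) n) → IsRat k n f

end Pool.Agent.SCT
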