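import Mathlib

/-!
# Squad SCT: cubic hypersurfaces with a secant congruence (MP_02d4f5_ag)

`n + 2` homogeneous coordinates, `n` the dimension of the cubic hypersurface `f = 0`,
`T = gen k n` the generic point of the affine space, `FT k n = k(T_0, ..., T_(n+1))`.

All rows: file `Pool/Agent/HelperNN_SCT/XXX.lean`, import the file of the statement, namespace
`Pool.Agent.SCT.HNN`, theorem `xxx (hypotheses = the statements of the column uses, in this order) : XxxStmt`.
-/

set_option autoImplicit false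

namespace Pool.Agent.SCT

open MvPolynomial

/-- the field `k(T_0, ..., T_{n+1})` -/
abbrev FT (k : Type) [Field k] (n : ℕ) : Type := FractionRing (MvPolynomial (Fin (n + 2)) k)

/-- the algebraic closure of `k(T)` -/
abbrev Cl (k : Type) [Field k] (n : ℕ) : Type := AlgebraicClosure (FT k n)

/-- the generic point `T` -/
noncomputable def gen (k : Type) [Field k] (n : ℕ) : Fin (n + 2) → FT k n :=
  fun i => algebraMap (MvPolynomial (Fin (n + 2)) k) (FT k n) (X i)

/-- the field generated over `k` by the ratios of the coordinates of `y` -/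
def rat (k : Type) [Field k] {Ω ι : Type} [Field Ω] [Algebra k Ω] (y : ι → Ω) :
    IntermediateField k Ω :=
  IntermediateField.adjoin k {z | ∃ i j, z = y i / y j}

/-- the closure of the point `y` has dimension at most `d` -/
def DimLe (k : Type) [Field k] {Ω ι : Type} [Field Ω] [Algebra k Ω] (y : ι → Ω) (d : ℕ) : Prop :=
  Algebra.trdeg k (rat k y) ≤ d

/-- the closure of the pair of points `(x, y)` has dimension at most `d` -/
def DimLe2 (k : Type) [Field k] {Ω ι : Type} [Field Ω] [Algebra k Ω] (x y : ι → Ω) (d : ℕ) :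
    Prop :=
  Algebra.trdeg k (rat k x ⊔ rat k y : IntermediateField k Ω) ≤ d

/-- the hypersurface `f = 0` is nonsingular -/
def Nonsing (k : Type) [Field k] (n : ℕ) (f : MvPolynomial (Fin (n + 2)) k) : Prop :=
  ∀ x : Fin (n + 2) → k, x ≠ 0 → eval x f = 0 → ∃ i, eval x (pderiv i f) ≠ 0

/-- the hypersurface `f = 0` has a birational parametrisation -/
def IsRat (k : Type) [Field k] (n : ℕ) (f : MvPolynomial (Fin (n + 2)) k) : Prop :=
  ∃ x : Fin (n + 2) → FractionRing (MvPolynomial (Fin n) k),
    x ≠ 0 ∧ aeval x f = 0 ∧ IntermediateField.adjoin k {z | ∃ i j, z = x i / x j} = ⊤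

/-- the value at `b` of the differential of `f` at `a` -/
noncomputable def dd {k : Type} [Field k] {Ω ι : Type} [Field Ω] [Algebra k Ω] [Fintype ι]
    (f : MvPolynomial ι k) (a b : ι → Ω) : Ω :=
  ∑ i, b i * aeval a (pderiv i f)

/-- the point `T + u x` with coordinates in the algebraic closure of `k(T)` -/
noncomputable def pt (k : Type) [Field k] (n : ℕ) (x : Fin (n + 2) → FT k n) (u : Cl k n) :
    Fin (n + 2) → Cl k n :=
  fun i => algebraMap (FT k n) (Cl k n) (gen k n i) + u * algebraMap (FT k n) (Cl k n) (x i)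

/-- the line through the generic point `T` and the point `x` of the cubic `f = 0` meets the cubic in the further
points `T + u x` and `T + v x` (`f(T + U x) = f(T) + U dd f T x + U ^ 2 dd f x T` has the roots `u`, `v`), of
dimension at most `a` and `b` -/
structure Sec (k : Type) [Field k] (n a b : ℕ) (f : MvPolynomial (Fin (n + 2)) k)
    (x : Fin (n + 2) → FT k n) (u v : Cl k n) : Prop where
  ne : x ≠ 0
  zero : aeval x f = 0
  sum : algebraMap (FT k n) (Cl k n) (dd f (gen k n) x) =
    -algebraMap (FT k n) (Cl k n) (dd f x (gen k n)) * (u + v)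
  prod : algebraMap (FT k n) (Cl k n) (aeval (gen k n) f) =
    algebraMap (FT k n) (Cl k n) (dd f x (gen k n)) * (u * v)
  dimu : DimLe k (pt k n x u) a
  dimv : DimLe k (pt k n x v) b

/-- the point of the line through `T` and `x` in the hyperplane with the coefficients `c` -/
noncomputable def hyp (k : Type) [Field k] (n : ℕ) (c : Fin (n + 2) → k) (x : Fin (n + 2) → FT k n) :
    Fin (n + 2) → FT k n :=
  fun i => (∑ j, algebraMap k (FT k n) (c j) * gen k n j) * x i -
    (∑ j, algebraMap k (FT k n) (c j) * x j) * gen k n i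

/-! ### small lemmas -/

section small

variable {k : Type} [Field k] {Ω ι : Type} [Field Ω] [Algebra k Ω]

theorem aeval_gen {n : ℕ} (f : MvPolynomial (Fin (n + 2)) k) :
    aeval (gen k n) f = algebraMap (MvPolynomial (Fin (n + 2)) k) (FT k n) f := by
  have h := aeval_algebraMap_apply (FT k n) (X : Fin (n + 2) → MvPolynomial (Fin (n + 2)) k) f
  rw [aeval_X_left_apply] at h
  exact h

theorem aeval_gen_ne {n : ℕ} {f : MvPolynomial (Fin (n + 2)) k} (hf : f ≠ 0) :
    aeval (gen k n) f ≠ 0 := by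
  rw [aeval_gen]
  exact fun h => hf ((map_eq_zero_iff _ (IsFractionRing.injective _ _)).1 h)

theorem Nonsing.ne_zero {n : ℕ} {f : MvPolynomial (Fin (n + 2)) k} (hf : Nonsing k n f) : f ≠ 0 := by
  rintro rfl
  have h1 : (fun _ => 1 : Fin (n + 2) → k) ≠ 0 := fun h => one_ne_zero (congrFun h 0)
  obtain ⟨i, hi⟩ := hf _ h1 (map_zero _)
  rw [map_zero, map_zero] at hi
  exact hi rfl

theorem rat_smul {c : Ω} (hc : c ≠ 0) (y : ι → Ω) : rat k (fun i => c * y i) = rat k y := by
  unfold rat
  congr 1
  ext z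
  constructor
  · rintro ⟨i, j, rfl⟩
    exact ⟨i, j, mul_div_mul_left _ _ hc⟩
  · rintro ⟨i, j, rfl⟩
    exact ⟨i, j, (mul_div_mul_left _ _ hc).symm⟩

theorem rat_eq {y : ι → Ω} {j : ι} (hj : y j ≠ 0) :
    rat k y = IntermediateField.adjoin k (Set.range fun i => y i / y j) := by
  apply le_antisymm
  · unfold rat
    rw [IntermediateField.adjoin_le_iff]
    rintro _ ⟨i, l, rfl⟩
    have h1 : y i / y l = (y i / y j) / (y l / y j) := (div_div_div_cancel_right₀ hj _ _).symm
    rw [h1]
    exact div_mem (IntermediateField.subset_adjoin _ _ ⟨i, rfl⟩)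
      (IntermediateField.subset_adjoin _ _ ⟨l, rfl⟩)
  · rw [IntermediateField.adjoin_le_iff]
    rintro _ ⟨i, rfl⟩
    exact IntermediateField.subset_adjoin _ _ ⟨i, j, rfl⟩

theorem rat_map {Ω' : Type} [Field Ω'] [Algebra k Ω'] (e : Ω →ₐ[k] Ω') (y : ι → Ω) :
    rat k (fun i => e (y i)) = (rat k y).map e := by
  unfold rat
  rw [IntermediateField.adjoin_map]
  congr 1
  ext z
  constructor
  · rintro ⟨i, j, rfl⟩
    exact ⟨_, ⟨i, j, rfl⟩, map_div₀ e _ _⟩
  · rintro ⟨_, ⟨i, j, rfl⟩, rfl⟩
    exact ⟨i, j, map_div₀ e _ _⟩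

theorem dimLe_map {Ω' : Type} [Field Ω'] [Algebra k Ω'] (e : Ω →ₐ[k] Ω') (y : ι → Ω) (d : ℕ) :
    DimLe k (fun i => e (y i)) d ↔ DimLe k y d := by
  unfold DimLe
  rw [rat_map, ← ((rat k y).equivMap e).trdeg_eq]

theorem dimLe2_map {Ω' : Type} [Field Ω'] [Algebra k Ω'] (e : Ω →ₐ[k] Ω') (x y : ι → Ω) (d : ℕ) :
    DimLe2 k (fun i => e (x i)) (fun i => e (y i)) d ↔ DimLe2 k x y d := by
  unfold DimLe2
  rw [rat_map, rat_map, ← IntermediateField.map_sup,
    ← ((rat k x ⊔ rat k y).equivMap e).trdeg_eq]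

theorem dd_add [Fintype ι] (f : MvPolynomial ι k) (a b c : ι → Ω) :
    dd f a (fun i => b i + c i) = dd f a b + dd f a c := by
  simp only [dd, add_mul, Finset.sum_add_distrib]

theorem dd_smul [Fintype ι] (f : MvPolynomial ι k) (a b : ι → Ω) (c : Ω) :
    dd f a (fun i => c * b i) = c * dd f a b := by
  simp only [dd, Finset.mul_sum, mul_assoc]

end small

end Pool.Agent.SCT
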