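import Pool.Agent.SCT.Defs

/-!
# Squad SCT, block A: the anisotropy lemma

Descent of points of odd degree (Amer, Brumer, Colliot-Thelene, Levine for zero cycles), by norms.
-/

set_option autoImplicit false

namespace Pool.Agent.SCT

open MvPolynomial

/-- **Row NRM** (the norm form; medium). PROOF. Let `D = finrank L F`, `B` a basis of `F / L`, `M i` the matrix
of the multiplication by `a i` (`Algebra.leftMulMatrix`). `N = det (∑ i, X i • (M i).map C)`, a polynomial in
`MvPolynomial σ L`. It is homogeneous of degree `D` (Leibniz formula), and for every commutative `L`-algebra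
`S` and `z : σ → S`: `aeval z N = det (∑ i, z i • (M i).map (algebraMap L S))` (`RingHom.map_det`). For
`S = L` this is the norm of `∑ y i a i`. For `S = L[X]`, `z j = y j X - δ i j`: with `l = ∑ y j a j ≠ 0`, `Ml` its
matrix, `det (X Ml - M i) = det Ml * det (X - Ml⁻¹ M i)`, and `Ml⁻¹ M i` is the matrix of `a i / l`, so
`P = charpoly (leftMulMatrix B (a i / l))`, which is monic and annihilates `a i / l` (Cayley-Hamilton). -/
def NrmStmt : Prop :=
  ∀ (L F : Type) [Field L] [Field F] [Algebra L F] [FiniteDimensional L F] (σ : Type) [Fintype σ]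
    [DecidableEq σ] (a : σ → F), ∃ N : MvPolynomial σ L, N.IsHomogeneous (Module.finrank L F) ∧
      (∀ y : σ → L, eval y N = Algebra.norm L (∑ i, y i • a i)) ∧
      ∀ (y : σ → L) (i : σ), ∑ j, y j • a j ≠ 0 → ∃ P : Polynomial L, P.Monic ∧
        Polynomial.aeval (a i / ∑ j, y j • a j) P = 0 ∧
        aeval (fun j => Polynomial.C (y j) * Polynomial.X - Polynomial.C (if j = i then 1 else 0)) N =
          Polynomial.C (eval y N) * P

/-- **Row INT** (good linear form at a valuation ring; medium). Uses NRM. PROOF. `N` is the norm form of NRM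
for `F / K` (`K` is infinite, so `N` is determined by its values, `MvPolynomial.funext`), `N'` a primitive
version of it over `A`. The reduction of `N'` to the residue field `κ` of `A` is not `0` (a coefficient is a
unit); `L → κ` is injective and `L` infinite, so there is `y : σ → L` where it does not vanish
(`MvPolynomial.funext_set` or a similar lemma for infinite subsets), so `u = N' (y)` is a unit of `A` and
`norm (∑ y i a i) = c u ≠ 0`. The polynomial `P` of NRM for `y` has the coefficients `coeff (N' (y X - e i)) / u`,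
in `A`, and is monic, so `a i / l` is integral, `l = ∑ y j a j`. If `g` is a form of degree `d` over `L` then
`g a = l ^ d * g (a / l)`, `g (a / l)` is integral over `A`, so its norm is in the image of `A`
(`Algebra.isIntegral_norm`, `A` is integrally closed), and `norm l = c u`. -/
def IntStmt : Prop :=
  ∀ (L A K F : Type) [Field L] [Infinite L] [CommRing A] [IsDomain A] [ValuationRing A] [Algebra L A]
    [Field K] [Algebra A K] [IsFractionRing A K] [Algebra L K] [IsScalarTower L A K] [Field F]
    [Algebra K F] [FiniteDimensional K F] [Algebra L F] [IsScalarTower L K F] [Algebra A F]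
    [IsScalarTower A K F] (σ : Type) [Fintype σ] (a : σ → F)
    (N : MvPolynomial σ K) (c : K) (N' : MvPolynomial σ A), a ≠ 0 →
    (∀ y : σ → K, eval y N = Algebra.norm K (∑ i, y i • a i)) →
    N = C c * map (algebraMap A K) N' → (∃ e, IsUnit (coeff e N')) →
    (∀ (g : MvPolynomial σ L) (d : ℕ), g.IsHomogeneous d →
      ∃ z : A, Algebra.norm K (aeval a g) = algebraMap A K z * c ^ d) ∧
    ∃ y : σ → L, IsUnit (eval (fun j => algebraMap L A (y j)) N') ∧ ∑ j, y j • a j ≠ 0 ∧
      ∀ i, IsIntegral A (a i / ∑ j, y j • a j)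

/-- **Row ODD** (parity of a module; easy). PROOF. Induction on `finrank L V` (all `R`-modules `V` with this
finrank): `V ≠ 0`; `V` is an Artinian `R`-module (finite dimensional over `L`), so there is a simple submodule
`W` (`IsAtomic`), `W` is isomorphic to `R / n` for a maximal ideal `n` (`isSimpleModule_iff_quot_maximal`), and
the annihilator of `V` is contained in `n`. If `finrank L W` is odd, done; otherwise `V / W` has odd finrank and
a smaller one, its annihilator contains the one of `V`. -/
def OddStmt : Prop :=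
  ∀ (L R V : Type) [Field L] [CommRing R] [Algebra L R] [AddCommGroup V] [Module L V] [Module R V]
    [IsScalarTower L R V] [FiniteDimensional L V], Odd (Module.finrank L V) →
    ∃ I : Ideal R, I.IsMaximal ∧ (∀ r : R, (∀ v : V, r • v = 0) → r ∈ I) ∧
      Odd (Module.finrank L (R ⧸ I))

/-- **Row FIN** (dimension of the cokernel; medium). PROOF. `A` is a principal ideal domain (a DVR), `M` is free
of finite rank, `ψ` is injective. Smith normal form of the submodule `range ψ` of `M`
(`Submodule.smithNormalForm...` as in the proof of `Submodule.natAbs_det_equiv` or of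
`finrank_quotient_span_eq_natDegree_norm`): bases `b` of `M`, `c i : A` with `range ψ = span (c i • b i)`, so
`M / range ψ = ∏ A / (c i)` and `det ψ` is associated to `∏ c i`. Finally
`finrank L (A / (x y)) = finrank L (A / x) + finrank L (A / y)` for nonzero `x`, `y` (exact sequence
`0 → A / y → A / (x y) → A / x → 0`), all quotients are finite dimensional. -/
def FinStmt : Prop :=
  ∀ (L A M : Type) [Field L] [CommRing A] [IsDomain A] [IsPrincipalIdealRing A] [Algebra L A]
    [AddCommGroup M] [Module A M] [Module.Free A M] [Module.Finite A M] [Module L M]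
    [IsScalarTower L A M] (ψ : M →ₗ[A] M), (∀ x : A, x ≠ 0 → FiniteDimensional L (A ⧸ Ideal.span {x})) →
    LinearMap.det ψ ≠ 0 →
    FiniteDimensional L (M ⧸ LinearMap.range ψ) ∧
      Module.finrank L (M ⧸ LinearMap.range ψ) =
        Module.finrank L (A ⧸ Ideal.span {LinearMap.det ψ})

/-- **Row RES** (a residue field of odd degree; medium/strong). Uses ODD, FIN. PROOF.
`R = Algebra.adjoin A (range b)` is a subring of `F`, finite over `A` (finitely generated by integral elements).
`M = ∑ j, R θ j` for a basis `θ` of `F / K`: a finitely generated `A`-submodule of `F`, an `R`-module, torsion free,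
so free over the principal ideal domain `A`, and it spans `F` over `K`; a basis of `M` over `A` is a basis of
`F` over `K`, so the determinant of the multiplication by `ψ` on `M` is `norm ψ = δ`. By FIN the module
`V = M / ψ M` has the `L`-dimension `finrank L (A / δ)`, odd. `V` is an `R`-module, `ψ V = 0`. ODD for `R` gives
a maximal ideal `I` of `R` with `ψ ∈ I` and `R / I` of odd degree over `L`. -/
def ResStmt : Prop :=
  ∀ (L A K F : Type) [Field L] [CommRing A] [IsDomain A] [IsPrincipalIdealRing A] [Algebra L A]
    [Field K] [Algebra A K] [IsFractionRing A K] [Algebra L K] [IsScalarTower L A K] [Field F]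
    [Algebra K F] [FiniteDimensional K F] [Algebra L F] [IsScalarTower L K F] [Algebra A F]
    [IsScalarTower A K F] [IsScalarTower L A F] (σ : Type) [Finite σ] (b : σ → F)
    (ψ : Algebra.adjoin A (Set.range b)) (δ : A),
    (∀ x : A, x ≠ 0 → FiniteDimensional L (A ⧸ Ideal.span {x})) →
    (∀ i, IsIntegral A (b i)) → ψ ≠ 0 →
    algebraMap A K δ = Algebra.norm K (ψ : F) → Odd (Module.finrank L (A ⧸ Ideal.span {δ})) →
    ∃ (F' : Type) (_ : Field F') (_ : Algebra L F') (φ : Algebra.adjoin A (Set.range b) →ₐ[L] F'),
      Odd (Module.finrank L F') ∧ φ ψ = 0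

/-- the point of the odd degree extension: `a` is a common zero of the forms of `G` -/
def OddPt (L : Type) [Field L] (σ : Type) (G : Set (MvPolynomial σ L)) : Prop :=
  ∃ (F : Type) (_ : Field F) (_ : Algebra L F), Odd (Module.finrank L F) ∧
    ∃ a : σ → F, a ≠ 0 ∧ ∀ g ∈ G, aeval a g = 0

/-- **Row LOC** (the local step; medium). Uses INT, RES. PROOF. Put
`Algebra A F := ((algebraMap K F).comp (algebraMap A K)).toAlgebra`. INT gives `y`, `l = ∑ y j a j ≠ 0`,
`b j = a j / l` integral over `A`, `u = N'(y)` a unit, `norm l = eval y N = c u`. `R = Algebra.adjoin A (range b)`.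
`ψ = θ * aeval b h` is in `R`, `ψ = θ (aeval a h) / l ^ e ≠ 0`, and `norm ψ = δ c ^ e / (c u) ^ e = δ / u ^ e`, an element
of `A` associated to `δ`, so `A / (δ / u ^ e)` has odd `L`-dimension. RES gives `F'` of odd degree and
`φ : R → F'` with `φ ψ = 0`. The point is `z j = φ (b j)`: `∑ y j z j = φ 1 = 1`, so `z ≠ 0`. If `g ∈ G` and
`aeval a g = 0` then `aeval z g = φ (aeval b g) = φ (aeval a g / l ^ d) = 0`; otherwise `d = e` and
`aeval b g = aeval a g / l ^ e = τ ψ`, `φ (τ ψ) = 0`. -/
def LocStmt : Prop :=
  ∀ (L A K F : Type) [Field L] [Infinite L] [CommRing A] [IsDomain A] [IsPrincipalIdealRing A]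
    [ValuationRing A] [Algebra L A] [Field K] [Algebra A K] [IsFractionRing A K] [Algebra L K]
    [IsScalarTower L A K] [Field F] [Algebra K F] [FiniteDimensional K F] [Algebra L F]
    [IsScalarTower L K F] (σ : Type) [Fintype σ] (a : σ → F) (N : MvPolynomial σ K) (c : K)
    (N' : MvPolynomial σ A) (G : Set (MvPolynomial σ L)) (h : MvPolynomial σ L) (e : ℕ) (θ δ : A),
    (∀ x : A, x ≠ 0 → FiniteDimensional L (A ⧸ Ideal.span {x})) → a ≠ 0 →
    (∀ y : σ → K, eval y N = Algebra.norm K (∑ i, y i • a i)) →
    N = C c * map (algebraMap A K) N' → (∃ e, IsUnit (coeff e N')) → h.IsHomogeneous e →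
    algebraMap K F (algebraMap A K θ) * aeval a h ≠ 0 →
    Algebra.norm K (algebraMap K F (algebraMap A K θ) * aeval a h) = algebraMap A K δ * c ^ e →
    Odd (Module.finrank L (A ⧸ Ideal.span {δ})) →
    (∀ g ∈ G, ∃ d, g.IsHomogeneous d ∧ (aeval a g = 0 ∨ (d = e ∧ ∃ τ : A,
      aeval a g = algebraMap K F (algebraMap A K (τ * θ)) * aeval a h))) →
    OddPt L σ G

/-- **Row PLP** (the finite places of `L(t)`; medium). PROOF. `A = Localization.AtPrime (span {π})`, a discrete
valuation ring (`IsLocalization.AtPrime.isDiscreteValuationRing_of_dedekind_domain`), `φ = algebraMap`.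
The algebra structure of `A` on `RatFunc L` is the lift of `algebraMap (Polynomial L) (RatFunc L)`
(`IsLocalization.lift`). Every nonzero element of `A` is a unit times `φ π ^ e`, and
`A / (φ π ^ e) = L[X] / (π ^ e)` (`IsLocalization.AtPrime...equivQuotMaximalIdeal` for `e = 1` and the exact
sequence `0 → A / (x) → A / (x y) → A / (y) → 0`, or directly), of dimension `e deg π`. Last clause: `z * φ q = φ p` in
`A`, `φ q` is in the maximal ideal. -/
def PlpStmt : Prop :=
  ∀ (L : Type) [Field L] (π : Polynomial L), Irreducible π →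
    ∃ (A : Type) (_ : CommRing A) (_ : IsDomain A) (_ : IsPrincipalIdealRing A) (_ : ValuationRing A)
      (_ : Algebra L A) (_ : Algebra A (RatFunc L)) (_ : IsFractionRing A (RatFunc L))
      (_ : IsScalarTower L A (RatFunc L)) (φ : Polynomial L →+* A),
      (∀ p, algebraMap A (RatFunc L) (φ p) = algebraMap (Polynomial L) (RatFunc L) p) ∧
      (∀ x : A, x ≠ 0 → FiniteDimensional L (A ⧸ Ideal.span {x})) ∧
      (∀ p : Polynomial L, ¬ π ∣ p → IsUnit (φ p)) ∧
      (∀ (e : ℕ) (r : Polynomial L), ¬ π ∣ r →
        Module.finrank L (A ⧸ Ideal.span {φ (π ^ e * r)}) = e * π.natDegree) ∧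
      ∀ (p q : Polynomial L) (z : A), q ≠ 0 → algebraMap A (RatFunc L) z =
        algebraMap (Polynomial L) (RatFunc L) p / algebraMap (Polynomial L) (RatFunc L) q →
        π ∣ q → π ∣ p

/-- **Row PLI** (the infinite place of `L(t)`; medium). Uses PLP. PROOF. `τ` the automorphism of `RatFunc L` over
`L` with `X ↦ 1 / X`. Take `A`, `φ` of PLP for `π = X` and the new algebra structure
`(τ.toRingHom.comp (algebraMap A (RatFunc L))).toAlgebra`. If `natDegree p ≤ h`, then
`p / X ^ h = τ (Polynomial.reflect h p)`, so `z = φ (reflect h p)`; for `p ≠ 0` the order of `reflect h p` at `X` is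
`h - natDegree p`. Last clause: if `h < N = natDegree p` then
`z * φ (reflect N (X ^ h)) = φ (reflect N p)` (apply `τ` to `z X ^ h = p`, times `X ^ N`), the right hand side is a unit
and `reflect N (X ^ h) = X ^ (N - h)` goes to an element which is not one. -/
def PliStmt : Prop :=
  ∀ (L : Type) [Field L],
    ∃ (A : Type) (_ : CommRing A) (_ : IsDomain A) (_ : IsPrincipalIdealRing A) (_ : ValuationRing A)
      (_ : Algebra L A) (_ : Algebra A (RatFunc L)) (_ : IsFractionRing A (RatFunc L))
      (_ : IsScalarTower L A (RatFunc L)),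
      (∀ x : A, x ≠ 0 → FiniteDimensional L (A ⧸ Ideal.span {x})) ∧
      (∀ (p : Polynomial L) (h : ℕ), p.natDegree ≤ h → ∃ z : A, algebraMap A (RatFunc L) z =
        algebraMap (Polynomial L) (RatFunc L) p / RatFunc.X ^ h ∧
        (p ≠ 0 → p.natDegree = h → IsUnit z) ∧
        (p ≠ 0 → Module.finrank L (A ⧸ Ideal.span {z}) = h - p.natDegree)) ∧
      ∀ (p : Polynomial L) (h : ℕ) (z : A), p ≠ 0 → algebraMap A (RatFunc L) z =
        algebraMap (Polynomial L) (RatFunc L) p / RatFunc.X ^ h → p.natDegree ≤ h

/-- **Row PRI** (primitive form over `L[t]`; easy/medium). PROOF. Clear the denominators (`clear_den` of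
Helper88_CUB/TR: `N * C d = map a`, `d ≠ 0` in `L[t]`), divide `a` by the gcd `γ` of its coefficients
(`Finset.extract_gcd` or `Finset.gcd`), `c = γ / d`, `h` the maximum of the degrees of the coefficients. -/
def PriStmt : Prop :=
  ∀ (L σ : Type) [Field L] (N : MvPolynomial σ (RatFunc L)), N ≠ 0 →
    ∃ (c : RatFunc L) (N' : MvPolynomial σ (Polynomial L)) (h : ℕ), c ≠ 0 ∧
      N = C c * map (algebraMap (Polynomial L) (RatFunc L)) N' ∧
      (∀ e, (coeff e N').natDegree ≤ h) ∧ (∃ e, coeff e N' ≠ 0 ∧ (coeff e N').natDegree = h) ∧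
      ∀ π : Polynomial L, Irreducible π → ∃ e, ¬ π ∣ coeff e N'

/-- **Row FAC** (a prime factor with odd degree and odd multiplicity; easy). PROOF. `p ≠ 0`; strong induction on the
degree: `p` has an irreducible factor `π`, `p = π ^ e * r`, `¬ π ∣ r` (multiplicity), `e ≥ 1`; if `e * deg π` is odd, done;
otherwise `deg r` is odd and smaller: apply the induction to `r = ρ ^ e' * r'`; `ρ` is not associated to `π`
(`¬ π ∣ r`), so `p = ρ ^ e' * (π ^ e * r')` and `¬ ρ ∣ π ^ e * r'`. -/
def FacStmt : Prop :=
  ∀ (L : Type) [Field L] (p : Polynomial L), Odd p.natDegree →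
    ∃ (π : Polynomial L) (e : ℕ) (r : Polynomial L), Irreducible π ∧ p = π ^ e * r ∧ ¬ π ∣ r ∧
      Odd (e * π.natDegree)

/-- **Row DES** (one variable descent; medium/strong). Uses NRM, INT, LOC, PLP, PLI, PRI, FAC. PROOF. `K = RatFunc L`,
`t = RatFunc.X`, `F / K`, `a` the given point, `D = finrank K F` odd, `Algebra L F` the composition. NRM over `K`
gives `N`, it is not `0` (norm of `a i ≠ 0`). PRI gives `c`, `N'`, `h`.
(1) At `π` irreducible (PLP): `N = C c * map (algebraMap A K) (map φ N')`, a coefficient of `map φ N'` is a unit. At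
infinity (PLI): `N = C (c * t ^ h) * map (algebraMap A K) N''`, `N''` with the coefficients `z` of PLI for
`(coeff e N') / t ^ h` (choose `z`, `N'' = ∑ e ∈ N'.support, monomial e (z e)`), one of them is a unit.
(2) `δ i = norm (f i a) / c ^ 2`. First part of INT at `π`: `δ i` is in `A` for every `π`, so by the last clause of PLP the
denominator of `δ i` is `1` and `δ i = R i ∈ L[t]`. First part of INT at infinity: `R i / t ^ (2 h)` is in `A`, so
`deg R i ≤ 2 h` if `R i ≠ 0`. `f0 a = - t f1 a` gives `R 0 = (- t) ^ D R 1` (`Algebra.norm_algebraMap`).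
(3) `f1 a ≠ 0`, `deg R 1` odd: FAC gives `π`, `e`, `r`; LOC at `π` with the form `f1` of degree `2`, `θ = 1`,
`δ = φ (R 1)`; `f0`: `τ = - φ X`; `f1`: `τ = 1`.
(4) `f1 a ≠ 0`, `deg R 1` even: `deg R 0 = D + deg R 1` is odd; LOC at infinity with the form `f0`, `θ = 1`,
`δ = z` with `z = R 0 / t ^ (2 h)`, `c t ^ h` in the place of `c`, `finrank = 2 h - deg R 0` odd; `f1`: `τ = - z'`,
`z' = 1 / t` (PLI for `p = 1`, `h = 1`); `f0`: `τ = 1`.
(5) `f1 a = 0`: `f0 a = 0`; LOC at `π = X` with the form `1` of degree `0`, `θ = φ X`, `δ = φ (X ^ D)`,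
`norm t = t ^ D`, `finrank = D` odd; all the forms vanish at `a`. -/
def DesStmt : Prop :=
  ∀ (L : Type) [Field L] [Infinite L] (σ : Type) [Finite σ] (G : Set (MvPolynomial σ L))
    (f0 f1 : MvPolynomial σ L), (∀ g ∈ G, ∃ d, g.IsHomogeneous d) → f0.IsHomogeneous 2 →
    f1.IsHomogeneous 2 →
    OddPt (RatFunc L) σ
      (map (algebraMap L (RatFunc L)) '' G ∪
        {map (algebraMap L (RatFunc L)) f0 + C RatFunc.X * map (algebraMap L (RatFunc L)) f1}) →
    OddPt L σ (G ∪ {f0, f1})

/-- **Row IND** (the induction; medium). Uses DES. PROOF. Induction on `r`, for all `L`, `G`, `f0`. `r = 0`: the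
fraction field of `MvPolynomial (Fin 0) L` is `L`. Step: `K = FractionRing (MvPolynomial (Fin r) L)` is an
infinite field, and `FractionRing (MvPolynomial (Fin (r + 1)) L)` is isomorphic over `L` to `RatFunc K`, the last
variable going to `RatFunc.X` and the others to the variables of `K` (`MvPolynomial.finSuccEquiv` or
`finSuccEquivNth`, the lemma `frac_iso` of Helper88_CUB/TR may help; any order of the variables will do, for
example split off the variable `0`). The given point is a point over an odd degree extension of `RatFunc K`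
where the forms of `G` and `(f0 + ∑ X i f i) + t f r` vanish; DES over `K`, with the form
`f0 + ∑ i < r, X i f i` over `K`, gives a point over an odd degree extension of `K` where the forms of
`G ∪ {f r}` and `f0 + ∑ i < r, X i f i` vanish. Induction hypothesis for `G ∪ {f r}`. (Transport of `OddPt` along an
isomorphism of the base fields: easy.) -/
def IndStmt : Prop :=
  ∀ (L : Type) [Field L] [Infinite L] (σ : Type) [Finite σ] (r : ℕ) (G : Set (MvPolynomial σ L))
    (f0 : MvPolynomial σ L) (f : Fin r → MvPolynomial σ L), (∀ g ∈ G, ∃ d, g.IsHomogeneous d) →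
    f0.IsHomogeneous 2 → (∀ i, (f i).IsHomogeneous 2) →
    OddPt (FractionRing (MvPolynomial (Fin r) L)) σ
      (map (algebraMap L (FractionRing (MvPolynomial (Fin r) L))) '' G ∪
        {map (algebraMap L (FractionRing (MvPolynomial (Fin r) L))) f0 +
          ∑ i, C (algebraMap (MvPolynomial (Fin r) L) (FractionRing (MvPolynomial (Fin r) L)) (X i)) *
            map (algebraMap L (FractionRing (MvPolynomial (Fin r) L))) (f i)}) →
    OddPt L σ (G ∪ {f0} ∪ Set.range f)

/-- **Row ANI** (anisotropy; easy). Uses IND. PROOF. `σ = Fin (n + 2)`, `r = n + 2`, `f0 = 0`,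
`f i = pderiv i f`, `G = {f}`; the point `a` is over `FT k n` itself (degree one). IND gives a finite extension
`F / k`, so `F = k` (`k` is algebraically closed, `finrank` odd so the extension is finite), and a common zero of
`f` and all `pderiv i f`, contradiction to `Nonsing`. -/
def AniStmt : Prop :=
  ∀ (k : Type) [Field k] [IsAlgClosed k] (n : ℕ) (f : MvPolynomial (Fin (n + 2)) k),
    f.IsHomogeneous 3 → Nonsing k n f → ∀ a : Fin (n + 2) → FT k n, a ≠ 0 → aeval a f = 0 →
    dd f a (gen k n) ≠ 0

end Pool.Agent.SCT
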