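import Pool.Agent.SCT.StmtsC

/-!
# Squad SCT, block P: nonsingular Pfaffian cubic fourfolds have secant data

`m k`, `k : Fin (4 + 2)`, are alternating `6 x 6` matrices over `E` and `M(z) = ∑ z k m k` (`pm`),
`N(v)` is the matrix with `N(v) z = M(z) v` (`nm`); `det M(z) = c f(z) ^ 2`.
-/

set_option autoImplicit false

namespace Pool.Agent.SCT

open MvPolynomial

/-- the matrix `M(z) = ∑ z k m k` -/
def pm (E : Type) [Field E] {Ω : Type} [Field Ω] [Algebra E Ω]
    (m : Fin (4 + 2) → Matrix (Fin (4 + 2)) (Fin (4 + 2)) E) (z : Fin (4 + 2) → Ω) :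
    Matrix (Fin (4 + 2)) (Fin (4 + 2)) Ω :=
  Matrix.of fun i j => ∑ k, z k * algebraMap E Ω (m k i j)

/-- the matrix `N(v)` with `N(v) z = M(z) v` -/
def nm (E : Type) [Field E] {Ω : Type} [Field Ω] [Algebra E Ω]
    (m : Fin (4 + 2) → Matrix (Fin (4 + 2)) (Fin (4 + 2)) E) (v : Fin (4 + 2) → Ω) :
    Matrix (Fin (4 + 2)) (Fin (4 + 2)) Ω :=
  Matrix.of fun i k => ∑ j, algebraMap E Ω (m k i j) * v j

/-- `f` is up to a constant the Pfaffian of the alternating matrix `∑ z k m k` of linear forms -/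
structure Pf (E : Type) [Field E] (f : MvPolynomial (Fin (4 + 2)) E)
    (m : Fin (4 + 2) → Matrix (Fin (4 + 2)) (Fin (4 + 2)) E) (c : E) : Prop where
  diag : ∀ k i, m k i i = 0
  alt : ∀ k i j, m k i j = -m k j i
  ne : c ≠ 0
  det : ∀ z : Fin (4 + 2) → E, (pm E m z).det = c * (eval z f) ^ 2

/-! ### small lemmas -/

section small

variable {E : Type} [Field E] {Ω : Type} [Field Ω] [Algebra E Ω]
  {m : Fin (4 + 2) → Matrix (Fin (4 + 2)) (Fin (4 + 2)) E}

theorem nm_mulVec (v z : Fin (4 + 2) → Ω) : (nm E m v).mulVec z = (pm E m z).mulVec v := by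
  funext i
  simp only [Matrix.mulVec, dotProduct, nm, pm, Matrix.of_apply, Finset.sum_mul]
  rw [Finset.sum_comm]
  apply Finset.sum_congr rfl
  intro j _
  apply Finset.sum_congr rfl
  intro k _
  ring

theorem pm_add (y z : Fin (4 + 2) → Ω) : pm E m (fun i => y i + z i) = pm E m y + pm E m z := by
  ext i j
  simp only [pm, Matrix.of_apply, Matrix.add_apply, add_mul, Finset.sum_add_distrib]

theorem pm_smul (c : Ω) (z : Fin (4 + 2) → Ω) : pm E m (fun i => c * z i) = c • pm E m z := by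
  ext i j
  simp only [pm, Matrix.of_apply, Matrix.smul_apply, smul_eq_mul, Finset.mul_sum, mul_assoc]

theorem nm_add (y z : Fin (4 + 2) → Ω) : nm E m (fun i => y i + z i) = nm E m y + nm E m z := by
  ext i j
  simp only [nm, Matrix.of_apply, Matrix.add_apply, mul_add, Finset.sum_add_distrib]

theorem nm_smul (c : Ω) (z : Fin (4 + 2) → Ω) : nm E m (fun i => c * z i) = c • nm E m z := by
  ext i j
  simp only [nm, Matrix.of_apply, Matrix.smul_apply, smul_eq_mul, Finset.mul_sum]
  apply Finset.sum_congr rfl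
  intro k _
  ring

theorem pm_diag {f : MvPolynomial (Fin (4 + 2)) E} {c : E} (h : Pf E f m c)
    (z : Fin (4 + 2) → Ω) (i : Fin (4 + 2)) : pm E m z i i = 0 := by
  simp only [pm, Matrix.of_apply, h.diag, map_zero, mul_zero, Finset.sum_const_zero]

theorem pm_alt {f : MvPolynomial (Fin (4 + 2)) E} {c : E} (h : Pf E f m c)
    (z : Fin (4 + 2) → Ω) (i j : Fin (4 + 2)) : pm E m z i j = -pm E m z j i := by
  simp only [pm, Matrix.of_apply]
  rw [← Finset.sum_neg_distrib]
  apply Finset.sum_congr rfl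
  intro k _
  rw [h.alt k i j, map_neg, mul_neg]

theorem pm_map {Ω' : Type} [Field Ω'] [Algebra E Ω'] (e : Ω →ₐ[E] Ω') (z : Fin (4 + 2) → Ω) :
    pm E m (fun i => e (z i)) = (pm E m z).map e := by
  ext i j
  simp only [pm, Matrix.of_apply, Matrix.map_apply, map_sum, map_mul, AlgHom.commutes]

theorem nm_map {Ω' : Type} [Field Ω'] [Algebra E Ω'] (e : Ω →ₐ[E] Ω') (z : Fin (4 + 2) → Ω) :
    nm E m (fun i => e (z i)) = (nm E m z).map e := by
  ext i j
  simp only [nm, Matrix.of_apply, Matrix.map_apply, map_sum, map_mul, AlgHom.commutes]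

/-- for an alternating matrix `A`: `y ⬝ A z = - z ⬝ A y` -/
theorem alt_dot {A : Matrix (Fin (4 + 2)) (Fin (4 + 2)) Ω} (h2 : ∀ i j, A i j = -A j i)
    (y z : Fin (4 + 2) → Ω) : y ⬝ᵥ A.mulVec z = -(z ⬝ᵥ A.mulVec y) := by
  simp only [Matrix.mulVec, dotProduct, Finset.mul_sum]
  rw [← Finset.sum_neg_distrib, Finset.sum_comm]
  apply Finset.sum_congr rfl
  intro j _
  rw [← Finset.sum_neg_distrib]
  apply Finset.sum_congr rfl
  intro i _
  rw [h2 i j]
  ring

/-- for an alternating matrix `A`: `z ⬝ A z = 0` (also in characteristic two) -/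
theorem alt_self {A : Matrix (Fin (4 + 2)) (Fin (4 + 2)) Ω} (h1 : ∀ i, A i i = 0)
    (h2 : ∀ i j, A i j = -A j i) (z : Fin (4 + 2) → Ω) : z ⬝ᵥ A.mulVec z = 0 := by
  simp only [Matrix.mulVec, dotProduct, Finset.mul_sum]
  rw [← Finset.sum_product', Finset.univ_product_univ]
  apply Finset.sum_involution (fun (p : Fin (4 + 2) × Fin (4 + 2)) _ => (p.2, p.1))
  · rintro ⟨i, j⟩ _
    simp only
    rw [h2 i j]
    ring
  · rintro ⟨i, j⟩ _ h
    simp only at h
    intro h0
    rw [Prod.mk.injEq] at h0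
    apply h
    have h3 : j = i := h0.1
    rw [h3, h1, zero_mul, mul_zero]
  · intro _ _
    exact Finset.mem_univ _
  · intro _ _
    rfl

end small

/-- **Row PDT** (the determinant over extensions; easy). PROOF. Both sides are polynomials in `z` over `E`: the
determinant of the matrix `pm` with the entries `∑ X k C (m k i j)` over `MvPolynomial (Fin (4 + 2)) E` and
`C c * f ^ 2` have the same values on `E ^ 6` (`MvPolynomial.funext`, `E` is infinite), so they are equal; apply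
`aeval z` (`RingHom.map_det` / `AlgHom.map_det`). -/
def PdtStmt : Prop :=
  ∀ (E : Type) [Field E] [Infinite E] (f : MvPolynomial (Fin (4 + 2)) E)
    (m : Fin (4 + 2) → Matrix (Fin (4 + 2)) (Fin (4 + 2)) E) (c : E), Pf E f m c →
    ∀ (Ω : Type) [Field Ω] [Algebra E Ω] (z : Fin (4 + 2) → Ω),
      (pm E m z).det = algebraMap E Ω c * (aeval z f) ^ 2

/-- **Row NSX** (nonsingular over every extension; medium). PROOF. Suppose all `aeval x (pderiv i f) = 0`; `x j ≠ 0`,
`y i = x i / x j`. `f` and the `pderiv i f` (homogeneous of degree `d - 1`, `IsHomogeneous.pderiv`) vanish at `y`. The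
kernel `I` of `aeval y : MvPolynomial (Fin (n + 2)) E → Ω` is a proper ideal, it contains `f`, the `pderiv i f` and `X j - 1`.
`E` is algebraically closed, so `I` has a zero `e : Fin (n + 2) → E` (Nullstellensatz:
`MvPolynomial.vanishingIdeal_zeroLocus_eq_radical` or a maximal ideal containing `I` and
`MvPolynomial.isMaximal_iff_eq_vanishingIdeal_singleton`). `e j = 1`, so `e ≠ 0`, contradiction to `Nonsing`. -/
def NsxStmt : Prop :=
  ∀ (E : Type) [Field E] [IsAlgClosed E] (n d : ℕ) (f : MvPolynomial (Fin (n + 2)) E),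
    f.IsHomogeneous d → Nonsing E n f → ∀ (Ω : Type) [Field Ω] [Algebra E Ω]
    (x : Fin (n + 2) → Ω), x ≠ 0 → aeval x f = 0 → ∃ i, aeval x (pderiv i f) ≠ 0

/-- **Row EVK** (the kernel of a singular alternating matrix of even size has dimension at least two; easy/medium). PROOF.
(1) The determinant of an alternating matrix `B` of size `5` is `0`: `Matrix.det_apply`, `Finset.sum_involution` with
`σ ↦ σ⁻¹` : the term of `σ⁻¹` is `sign σ ∏ B (σ⁻¹ i) i = sign σ ∏ B i (σ i) = (-1) ^ 5 sign σ ∏ B (σ i) i`, minus the term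
of `σ`; if `σ = σ⁻¹` then `σ` has a fixed point (`5` is odd; `decide`-like or parity of the number of fixed points of an
involution) and the term is `0`. (2) `u i0 ≠ 0`. Delete the row and the column `i0` of `A`
(`Fin.succAbove i0`): the alternating matrix `B` of size `5` has a nonzero vector in its kernel
(`Matrix.exists_mulVec_eq_zero_iff`), extend it by `0` at `i0` to `u'`. `(A u') i = 0` for `i ≠ i0`, and
`0 = - u' ⬝ A u = u ⬝ A u' = u i0 * (A u') i0` (`alt_dot`), so `A u' = 0`. `u` and `u' ≠ 0` are independent, as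
`u' i0 = 0 ≠ u i0`. -/
def EvkStmt : Prop :=
  ∀ (F : Type) [Field F] (A : Matrix (Fin (4 + 2)) (Fin (4 + 2)) F), (∀ i, A i i = 0) →
    (∀ i j, A i j = -A j i) → ∀ u : Fin (4 + 2) → F, u ≠ 0 → A.mulVec u = 0 →
    ∃ u' : Fin (4 + 2) → F, A.mulVec u' = 0 ∧ LinearIndependent F ![u, u']

/-- **Row LSX** (a linear system which is solvable over an extension; easy). PROOF. `Ω` is a `C`-vector space, the line
`C 1` has a complement, so there is a `C`-linear `ρ : Ω → C` with `ρ 1 = 1` (`LinearMap.exists_leftInverse_of_injective`).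
Apply `ρ` to the equations: `A (ρ w) = ρ (A w) = b`. -/
def LsxStmt : Prop :=
  ∀ (C Ω : Type) [Field C] [Field Ω] [Algebra C Ω] (ι κ : Type) [Fintype ι] [Fintype κ]
    (A : Matrix κ ι C) (b : κ → C) (w : ι → Ω),
    (A.map (algebraMap C Ω)).mulVec w = (fun i => algebraMap C Ω (b i)) →
    ∃ w' : ι → C, A.mulVec w' = b

/-- **Row ADJ** (adjugate and kernel; easy/medium). PROOF. If `a`, `b` are independent in the kernel, then for every `i`
the vector `z = b i a - a i b` (or `a` if `a i = b i = 0`) is a nonzero kernel vector with `z i = 0`, so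
`(A.updateRow j (Pi.single i 1)) z = 0`, its determinant is `0`, this is the entry `(i, j)` of the adjugate
(`Matrix.adjugate_apply`). Conversely let `adj A = 0`. `det A = 0` (`A adj A = det A`), so there is `a ≠ 0` with `A a = 0`. Suppose the
kernel is spanned by `a`, `a i ≠ 0`. There is `y` outside of the range of `A`. `B = A.updateCol i y` is invertible: `B z = 0` gives
`z i = 0` (else `y` is in the range), so `A z = 0`, `z = μ a`, `μ a i = 0`. So `0 ≠ det B = (adj A y) i` (`Matrix.cramer_apply`,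
`Matrix.cramer_eq_adjugate_mulVec`), contradiction. -/
def AdjStmt : Prop :=
  ∀ (F : Type) [Field F] (A : Matrix (Fin (4 + 2)) (Fin (4 + 2)) F), A.adjugate = 0 ↔
    ∃ a b : Fin (4 + 2) → F, LinearIndependent F ![a, b] ∧ A.mulVec a = 0 ∧ A.mulVec b = 0

/-- **Row CRK** (the corank is at most two on the hypersurface; medium). Uses EXP, PDT, NSX. PROOF. Suppose `a`, `b`, `d` are
independent in the kernel of `M(z)`. Let `G` be an invertible matrix over `Ω` with the first three columns `a`, `b`, `d`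
(extend to a basis). Fix `i`, `y = Pi.single i 1`. Over `Ω[X]` (or `RatFunc Ω`) let `P = M(z) + X M(y)`, the matrix `M` of the
vector `z + X y`. The first three columns of `P G` are `X` times the columns of `M(y) G`, so `X ^ 3` divides
`det P det G`, so it divides `det P`. By PDT (over `RatFunc Ω`, or by evaluation at all elements of an infinite extension) and
EXP `det P = c f(z + X y) ^ 2`, `f(z + X y) = X dd f z y + X ^ 2 dd f y z + X ^ 3 f(y)`, so `X ^ 3` divides
`c X ^ 2 (dd f z y + X (...)) ^ 2` and `dd f z y = aeval z (pderiv i f) = 0` for every `i`, contradiction to NSX. -/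
def CrkStmt : Prop :=
  ∀ (E : Type) [Field E] [IsAlgClosed E] (f : MvPolynomial (Fin (4 + 2)) E)
    (m : Fin (4 + 2) → Matrix (Fin (4 + 2)) (Fin (4 + 2)) E) (c : E), f.IsHomogeneous 3 →
    Nonsing E 4 f → Pf E f m c → ∀ (Ω : Type) [Field Ω] [Algebra E Ω] (z : Fin (4 + 2) → Ω),
    z ≠ 0 → aeval z f = 0 → ∀ a b d : Fin (4 + 2) → Ω, (pm E m z).mulVec a = 0 →
    (pm E m z).mulVec b = 0 → (pm E m z).mulVec d = 0 → ¬ LinearIndependent Ω ![a, b, d]

/-- **Row HYD** (a point of a hyperplane over the ground field; easy/medium). PROOF. If `w = 0` then `rat k w = ⊥`. Otherwise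
`w j ≠ 0`; there is `i ≠ j` with `c i ≠ 0` (else `c j w j = 0`, `c j ≠ 0`). `rat k w` is generated by the `n` elements
`w l / w j`, `l ≠ i, j` (`w i / w j` is a linear combination of them and of `1`). See `trdeg_adjoin_le`, `trdeg_mono`,
`rat_le` in Helper57_SCT/ODS and the row FLB. -/
def HydStmt : Prop :=
  ∀ (k Ω : Type) [Field k] [Field Ω] [Algebra k Ω] (n : ℕ) (w : Fin (n + 2) → Ω)
    (c : Fin (n + 2) → k), c ≠ 0 → ∑ i, algebraMap k Ω (c i) * w i = 0 → DimLe k w n

/-- **Row HSD** (a point of a hypersurface; medium). PROOF. `x j ≠ 0` (if `x = 0` then `rat k x = ⊥`). `rat k x` is generated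
by the `n + 1` elements `x l / x j`, `l ≠ j`. They are not algebraically independent over `k`: the polynomial `g` obtained
from `f` by putting `X j = 1` vanishes there (homogeneity), and `g ≠ 0` (different monomials of degree `d` stay
different; or: for `a : Fin (n + 2) → K`, `K` an infinite extension, `a j ≠ 0`, `f(a) = a j ^ d g(a / a j)`). So a
transcendence basis among these elements (`exists_isTranscendenceBasis_subset`) has at most `n` elements. -/
def HsdStmt : Prop :=
  ∀ (k Ω : Type) [Field k] [Field Ω] [Algebra k Ω] (n d : ℕ) (f : MvPolynomial (Fin (n + 2)) k)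
    (x : Fin (n + 2) → Ω), f.IsHomogeneous d → f ≠ 0 → aeval x f = 0 → DimLe k x n

/-- **Row GTD** (the dimension of the generic point; easy/medium). PROOF. `FT k n` is generated over `rat k (gen k n)` by
`T 0` (`T i = (T i / T 0) T 0`), its transcendence degree over `k` is `n + 2` (`MvPolynomial.trdeg_of_isDomain` and
`Algebra.trdeg_add_eq` or the row AIN), so `n + 2 ≤ d + 1`. -/
def GtdStmt : Prop :=
  ∀ (k : Type) [Field k] (n d : ℕ), DimLe k (gen k n) d → n + 1 ≤ d

/-- **Row CNT** (a count of transcendence degrees; medium). PROOF. `C(b1, b2)` has transcendence degree `trdeg C + 2` over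
`E` (`b1`, `b2` are algebraically independent over `C`). All its elements are algebraic over `C1`, so
`trdeg E (C1 ⊔ C(b1, b2)) = trdeg E C1 ≤ d + 2`, and `trdeg C + 2 ≤ d + 2`. -/
def CntStmt : Prop :=
  ∀ (E Ω : Type) [Field E] [Field Ω] [Algebra E Ω] (C C1 : IntermediateField E Ω) (b1 b2 : Ω)
    (d : ℕ), AlgebraicIndependent C ![b1, b2] → (∀ x ∈ C, IsAlgebraic C1 x) →
    IsAlgebraic C1 b1 → IsAlgebraic C1 b2 → Algebra.trdeg E C1 ≤ (d + 2 : ℕ) →
    Algebra.trdeg E C ≤ d

/-- **Row GRK** (generic rank; strong). Uses PDT, EVK, ADJ, CRK, HSD, GTD. PROOF. `T = gen E 4`. `det N(T) = 0` since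
`T ⬝ N(T) z = T ⬝ M(z) T = 0` (`alt_self`). Suppose `adj N(T) = 0`. `C1 = rat E T`, `T' = T / T 0` with coordinates in `C1`,
`adj N(T') = 0`, so (ADJ over `C1`) there are `z1`, `z2` over `C1`
independent, `M(zi) T = 0`. Let `Ω = RatFunc (FT E 4)` (or `FractionRing (FT E 4)[X]`), `t` its variable,
`x = z1 + t z2 ≠ 0`. `M(x) T = 0`, so `det M(x) = 0` and `f(x) = 0` (PDT). `C2 = rat E x` (in `Ω`) has transcendence
degree `≤ 4` (HSD, `f ≠ 0`). With `x' = x / x j` over `C2`: `M(x')` is singular over `C2`, so it has independent kernel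
vectors `a`, `b` over `C2` (`Matrix.exists_mulVec_eq_zero_iff`, EVK); by CRK `T = α a + β b` with `α`, `β ∈ Ω`. So all the
ratios of `T` are in `C2(θ)`, `θ = β / α` or `α / β`, and `C1 ⊔ C2 ≤ C2(θ)` has transcendence degree at most `5`.
There are `λ`, `μ` over `C1` (rows) with `λ ⬝ z1 = 1`, `λ ⬝ z2 = 0`, `μ ⬝ z1 = 0`, `μ ⬝ z2 = 1`, so
`t = (μ ⬝ x') / (λ ⬝ x')` is in `C1 ⊔ C2`. But `C1(t)` has transcendence degree `5 + 1 = 6` (GTD for `C1`, `t` is transcendental
over `FT E 4`). Contradiction. -/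
def GrkStmt : Prop :=
  ∀ (E : Type) [Field E] [IsAlgClosed E] (f : MvPolynomial (Fin (4 + 2)) E)
    (m : Fin (4 + 2) → Matrix (Fin (4 + 2)) (Fin (4 + 2)) E) (c : E), f.IsHomogeneous 3 →
    Nonsing E 4 f → Pf E f m c → (nm E m (gen E 4)).adjugate ≠ 0

/-- **Row CXI** (choice of the hyperplane; medium). Uses PDT, GRK. PROOF. By GRK an entry of the adjugate of `N(T)`, a
polynomial `G(T)` over `E`, is not `0` (`G` = the entry of the adjugate of the matrix of linear forms over
`MvPolynomial (Fin (4 + 2)) E`; `AlgHom.map_adjugate`). `det M(T) = c f(T) ^ 2 ≠ 0` (PDT, `aeval_gen_ne`), `Q = M(T)⁻¹`.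
Suppose `G(Q ξ) = 0` for all `ξ : Fin (4 + 2) → E` (as vectors over `FT E 4`). Then the polynomial `G(Q Y)` in `Y` over `FT E 4`
vanishes on `E ^ 6`, `E` is infinite, so it is `0` (`MvPolynomial.funext_set` or a similar lemma), and for `e : Fin (4 + 2) → E`, `Y = M(T) e`:
`G(e) = 0`, so `G = 0`, contradiction. So `G(Q ξ) ≠ 0` for some `ξ`, `v = Q ξ`. `ξ ≠ 0` because `N(0) = 0` has adjugate `0`. -/
def CxiStmt : Prop :=
  ∀ (E : Type) [Field E] [IsAlgClosed E] (f : MvPolynomial (Fin (4 + 2)) E)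
    (m : Fin (4 + 2) → Matrix (Fin (4 + 2)) (Fin (4 + 2)) E) (c : E), f.IsHomogeneous 3 →
    Nonsing E 4 f → Pf E f m c → ∃ (ξ : Fin (4 + 2) → E) (v : Fin (4 + 2) → FT E 4), ξ ≠ 0 ∧
      (pm E m (gen E 4)).mulVec v = (fun i => algebraMap E (FT E 4) (ξ i)) ∧
      (nm E m v).adjugate ≠ 0

/-- **Row DPF** (the dimension of the points of the surface; strong). Uses PDT, EVK, LSX, ADJ, CRK, HYD, CNT. PROOF.
(0) `p j ≠ 0`, `C = rat E p`, `p' = p / p j` has coordinates in `C`, `f(p') = 0`. `M(p') (p j v) = ξ`, so (LSX for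
`C ≤ Ω`) there is `w0` over `C` with `M(p') w0 = ξ`. `det M(p') = 0` (PDT), so over `C` (`Matrix.exists_mulVec_eq_zero_iff`) there are independent `w1`, `w2` with `M(p') wi = 0` (EVK). By CRK
`p j v - w0`, in the kernel of `M(p')` over `Ω`, is `α1 w1 + α2 w2`. `ξ ⬝ w0 = w0 ⬝ M(p') w0 = 0`,
`ξ ⬝ wi = wi ⬝ M(p') w0 = - w0 ⬝ M(p') wi = 0`.
(1) `Ω' = FractionRing (MvPolynomial (Fin 2) Ω)` with the variables `β1`, `β2` (algebraically independent over `Ω`, so over
`C`), `v' = w0 + β1 w1 + β2 w2`. The entries of `adj N(v')` are polynomials in `β` over `Ω` and `adj N(w0 + α1 w1 + α2 w2) =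
(p j) ^ 5 adj N(v) ≠ 0`: there is an entry `(i, l)` which is not `0` at `α`; the column `l` of the adjugate,
`x_β`, is a nonzero vector over `Ω'` and `x_α ≠ 0`. `det N(v') = 0` (`v' ⬝ N(v') z = 0`), so `N(v') x_β = 0`, `N(v) x_α = 0`;
`adj N(v') ≠ 0` implies that the kernel of `N(v')` has dimension one (ADJ), the
same for `N(v)`, so `x_α = μ x`, `μ ≠ 0`.
(2) `C1 = rat E v'` has transcendence degree `≤ 4` (HYD for `ξ`). `v' i0 ≠ 0`, `ν = v' i0`, `v'' = v' / ν` over `C1`; `x'' = x_β / ν ^ 5`, the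
column `l` of `adj N(v'')`, is over `C1`. `N(v'') (ν p') = M(p') v' = ξ`, so (LSX) there is `z0` over `C1` with `N(v'') z0 = ξ`, and
`ν p' = z0 + γ x''`, `γ ∈ Ω'`. `g(X) = f(z0 + X x'')` is a polynomial over `C1` with `g(γ) = ν ^ 3 f(p') = 0`. `g ≠ 0`: otherwise
`f(ν p' + s x'') = 0` for all `s`, so `f(p' + s x_β) = 0` for all `s ∈ Ω`, this is a polynomial identity in `β`, put
`β = α`: `f(p' + s x_α) = 0` for all `s ∈ Ω`, contradiction to the hypothesis. So `γ` is algebraic over `C1`, and so are the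
coordinates of `ν p' = z0 + γ x''`, and `ν` (`p' j = 1`), and of `p'`, and all the elements of `C`.
(3) `w0`, `w1`, `w2` are independent over `C` (`M(p') w0 = ξ ≠ 0`), so there are rows `λ0`, `λ1`, `λ2` over `C` with
`λa ⬝ wb = δ a b`, `βi = (λi ⬝ v'') / (λ0 ⬝ v'')` is algebraic over `C1`. CNT (`d = 2`) for the copies of `C`, `C1` in `Ω'`. -/
def DpfStmt : Prop :=
  ∀ (E : Type) [Field E] [IsAlgClosed E] (f : MvPolynomial (Fin (4 + 2)) E)
    (m : Fin (4 + 2) → Matrix (Fin (4 + 2)) (Fin (4 + 2)) E) (c : E), f.IsHomogeneous 3 →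
    Nonsing E 4 f → Pf E f m c → ∀ (Ω : Type) [Field Ω] [Algebra E Ω] (ξ : Fin (4 + 2) → E)
    (v p x : Fin (4 + 2) → Ω), ξ ≠ 0 → p ≠ 0 → aeval p f = 0 →
    (pm E m p).mulVec v = (fun i => algebraMap E Ω (ξ i)) → (nm E m v).adjugate ≠ 0 →
    (pm E m x).mulVec v = 0 → (∃ s : Ω, aeval (fun i => p i + s * x i) f ≠ 0) → DimLe E p 2

/-- **Row PFS** (Pfaffian cubic fourfolds have secant data; medium/strong). Uses ANI, EXP, PDT, LSX, ADJ, HYD, CXI, DPF. PROOF.
`T = gen E 4`, `ξ`, `v` of CXI. `ξ ⬝ v = v ⬝ M(T) v = 0`, `det N(v) = 0` (`v ⬝ N(v) z = v ⬝ M(z) v = 0`). `x` = a nonzero column of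
`adj N(v)`, `N(v) x = 0`, so `M(x) v = 0`, `v ≠ 0`, `det M(x) = 0`, `f(x) = 0` (PDT). `a2 = dd f x T ≠ 0` (ANI). `u`, `w ∈ Cl E 4`: the roots of
`a2 U ^ 2 + dd f T x U + f(T)` with multiplicity (`IsAlgClosed`), `Sec.sum`, `Sec.prod`. `p = T + u x`: `f(p) = 0` (EXP, `f(x) = 0`),
`M(p) v = ξ`, `p ≠ 0` (`f(T) ≠ 0`), `f(p + (-u) x) = f(T) ≠ 0`: DPF gives `DimLe E p 2`; the same for `w`.
Last claim: `C1 = rat E v`, of transcendence degree `≤ 4` (HYD); `v j ≠ 0`, `v' = v / v j` over `C1`, `x' = x / (v j) ^ 5` is a column of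
`adj N(v')`, over `C1`, so `rat E x ≤ C1` (`rat_smul`). `N(v') (v j T) = M(T) v = ξ`, so (LSX) `N(v') z0 = ξ` for some `z0` over `C1`,
and `v j T = z0 + γ x'` as the kernel of `N(v')` has dimension one (the adjugate is not `0`). `hyp c x` is proportional to
`(c ⬝ (v j T)) x' - (c ⬝ x') (v j T) = (c ⬝ z0) x' - (c ⬝ x') z0`, over `C1`, so `rat E (hyp c x) ≤ C1`. -/
def PfsStmt : Prop :=
  ∀ (E : Type) [Field E] [IsAlgClosed E] (f : MvPolynomial (Fin (4 + 2)) E)
    (m : Fin (4 + 2) → Matrix (Fin (4 + 2)) (Fin (4 + 2)) E) (c : E), f.IsHomogeneous 3 →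
    Nonsing E 4 f → Pf E f m c → ∃ (x : Fin (4 + 2) → FT E 4) (u w : Cl E 4),
      Sec E 4 2 2 f x u w ∧ ∀ c : Fin (4 + 2) → E, DimLe2 E x (hyp E 4 c x) 4

end Pool.Agent.SCT
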